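import Pool.Agent.H201.HK.Enum

/-!
# Counting the solutions of equations with finitely many solutions
-/

set_option autoImplicit false

namespace Pool.Agent.H201.HK

open Pool.Agent.Q324.SC

/-- a computable function from inputs to bounds gives a computable majorant -/
lemma majorant {G : Eqn → ℕ} (cG : Computable G) : ∃ F : ℕ → ℕ, Computable F ∧
    ∀ (n i : ℕ) (D : Poly i), i ≤ n → D.totalDegree ≤ n → (∀ m, |D.coeff m| ≤ n) →
      ∃ l r : Side, NS i l r = Sol D n ∧ G (i, l, r) ≤ F n := by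
  have c1 : Computable (fun x : (ℕ × ℕ) × ℕ =>
      G (x.1.2, lf x.1.2 x.1.1 x.1.1 x.2, rt x.1.2 x.1.1 x.1.1 x.2)) :=
    cG.comp (inpt_primrec.to_comp.comp (f := fun x : ℕ × ℕ × ℕ × ℕ =>
      ((x.1, lf x.1 x.2.1 x.2.2.1 x.2.2.2, rt x.1 x.2.1 x.2.2.1 x.2.2.2) : Eqn))
      (g := fun x : (ℕ × ℕ) × ℕ => (x.1.2, x.1.1, x.1.1, x.2))
      ((Computable.snd.comp Computable.fst).pair
        ((Computable.fst.comp Computable.fst).pair
          ((Computable.fst.comp Computable.fst).pair Computable.snd))))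
  have c2 : Computable (fun x : ℕ × ℕ => gmax (fun j => G (x.2, lf x.2 x.1 x.1 j, rt x.2 x.1 x.1 j))
      ((2 * x.1 + 1) ^ ((x.1 + 1) ^ (x.2 + 1)))) := by
    have h1 : Primrec (fun x : ℕ × ℕ => (2 * x.1 + 1) ^ ((x.1 + 1) ^ (x.2 + 1))) := by fun_prop
    exact gmax_comp (f := fun (x : ℕ × ℕ) j => G (x.2, lf x.2 x.1 x.1 j, rt x.2 x.1 x.1 j)) c1
      h1.to_comp
  have c3 : Computable (fun n : ℕ => gmax (fun i => gmax (fun j => G (i, lf i n n j, rt i n n j))
      ((2 * n + 1) ^ ((n + 1) ^ (i + 1)))) (n + 1)) :=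
    gmax_comp (f := fun (n : ℕ) i => gmax (fun j => G (i, lf i n n j, rt i n n j))
      ((2 * n + 1) ^ ((n + 1) ^ (i + 1)))) c2 Computable.succ
  refine ⟨_, c3, fun n i D hi hd hc => ?_⟩
  obtain ⟨j, hj, hj3⟩ := exists_inpt hd hc
  refine ⟨_, _, hj3 n, ?_⟩
  refine le_trans ?_ (le_gmax (fun i => gmax (fun j => G (i, lf i n n j, rt i n n j))
      ((2 * n + 1) ^ ((n + 1) ^ (i + 1)))) (Nat.lt_succ_of_le hi))
  exact le_gmax (fun j => G (i, lf i n n j, rt i n n j)) hj

/-- the number of the solutions `≤ M` -/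
def cM (x : Eqn) (M : ℕ) : ℕ := cnt (fun u => chk (x, M, u)) ((M + 1) ^ x.1)

lemma cM_comp : Computable (fun y : Eqn × ℕ => cM y.1 y.2) := by
  have c1 : Computable (fun x : (Eqn × ℕ) × ℕ => chk (x.1.1, x.1.2, x.2)) :=
    chk_primrec.to_comp.comp ((Computable.fst.comp Computable.fst).pair
      ((Computable.snd.comp Computable.fst).pair Computable.snd))
  have c2 : Computable (fun y : Eqn × ℕ => (y.2 + 1) ^ y.1.1) := by
    have h1 : Primrec (fun y : Eqn × ℕ => (y.2 + 1) ^ y.1.1) := by fun_prop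
    exact h1.to_comp
  exact cnt_comp (f := fun (y : Eqn × ℕ) u => chk (y.1, y.2, u)) c1 c2

lemma cM_eq (i : ℕ) (l r : Side) (M : ℕ) :
    ({z | z ∈ NS i l r ∧ ∀ t, z t ≤ M}).encard = (cM (i, l, r) M : ℕ) := by
  classical
  unfold cM
  rw [cnt_eq]
  have h1 : {z | z ∈ NS i l r ∧ ∀ t, z t ≤ M} = (fun u => (fun t : Fin i => dig M u t)) ''
      (((Finset.range ((M + 1) ^ i)).filter fun u => chk ((i, l, r), M, u) = true : Finset ℕ) :
        Set ℕ) := by
    ext z
    rw [Set.mem_image, Set.mem_ofPred_eq]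
    constructor
    · rintro ⟨hz, hb⟩
      obtain ⟨u, hu, hu2⟩ := exists_code z hb
      have h2 : (fun t : Fin i => dig M u t) = z := funext hu2
      refine ⟨u, Finset.mem_coe.2 (Finset.mem_filter.2 ⟨Finset.mem_range.2 hu, ?_⟩), h2⟩
      rw [chk_iff, h2]
      exact hz
    · rintro ⟨u, hu, rfl⟩
      have h2 := (Finset.mem_filter.1 (Finset.mem_coe.1 hu)).2
      rw [chk_iff] at h2
      exact ⟨h2, fun t => dig_le _ _ _⟩
  rw [h1, Set.InjOn.encard_image, Set.encard_coe_eq_coe_finsetCard]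
  intro u hu u' hu' huu
  have h2 := Finset.mem_range.1 (Finset.mem_filter.1 (Finset.mem_coe.1 hu)).1
  have h3 := Finset.mem_range.1 (Finset.mem_filter.1 (Finset.mem_coe.1 hu')).1
  rw [eq_sum_dig M _ u h2, eq_sum_dig M _ u' h3]
  refine Finset.sum_congr rfl fun t ht => ?_
  congr 1
  exact congrFun huu ⟨t, Finset.mem_range.1 ht⟩

lemma siz_pos (x : Eqn) : 1 ≤ siz x := by
  unfold siz
  omega

/-- a bound for a finite set of points -/
lemma exists_bd {i : ℕ} {A : Set (Fin i → ℕ)} (hA : A.Finite) : ∃ M, ∀ z ∈ A, ∀ t, z t ≤ M := by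
  classical
  refine ⟨∑ z ∈ hA.toFinset, ∑ t, z t, fun z hz t => ?_⟩
  have h4 : z t ≤ ∑ t, z t :=
    Finset.single_le_sum (f := z) (fun _ _ => Nat.zero_le _) (Finset.mem_univ t)
  exact h4.trans (Finset.single_le_sum (f := fun z : Fin i → ℕ => ∑ t, z t)
    (fun _ _ => Nat.zero_le _) (hA.mem_toFinset.2 hz))

attribute [local irreducible] cM siz in
set_option maxHeartbeats 400000 in
/-- total counting from bounds for all solutions -/
theorem total_of_bound {F : ℕ → ℕ} (hF : Computable F) (h : ∀ n, 1 ≤ n → hmax ⊤ n ≤ F n) :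
    ∃ N : Eqn → ℕ, Computable N ∧ ∀ (i : ℕ) (l r : Side), (NS i l r).Finite →
      (NS i l r).encard = N (i, l, r) := by
  have c1 : Computable (fun x : Eqn => F (siz x)) := hF.comp siz_primrec.to_comp
  have c2 : Computable (fun x : Eqn => cM x (F (siz x))) :=
    Computable.comp (f := fun y : Eqn × ℕ => cM y.1 y.2) (g := fun x : Eqn => (x, F (siz x)))
      cM_comp (Computable.id.pair c1)
  refine ⟨fun x => cM x (F (siz x)), c2, fun i l r hfin => ?_⟩
  have hs : 1 ≤ siz (i, l, r) := siz_pos _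
  have h3 : {z | z ∈ NS i l r ∧ ∀ t, z t ≤ F (siz (i, l, r))} = NS i l r := by
    ext z
    rw [Set.mem_ofPred_eq]
    refine ⟨fun hz => hz.1, fun hz => ⟨hz, fun t => ?_⟩⟩
    refine le_trans ?_ (h (siz (i, l, r)) hs)
    refine largest_hmax ⊤ (siz (i, l, r)) i _ (inB_sp ⟨z, hz⟩ ?_) z ?_ t
    · rw [Set.encard_lt_top_iff]
      exact hfin
    · rw [sol_sp]
      exact hz
  have h4 := cM_eq i l r (F (siz (i, l, r)))
  rw [h3] at h4
  exact h4

/-- bounds for all solutions from total counting -/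
theorem bound_of_total {N : Eqn → ℕ} (hN : Computable N) (hN2 : ∀ (i : ℕ) (l r : Side),
    (NS i l r).Finite → (NS i l r).encard = N (i, l, r)) :
    ∃ F : ℕ → ℕ, Computable F ∧ ∀ n, 1 ≤ n → hmax ⊤ n ≤ F n := by
  let p : Eqn → ℕ → Bool := fun x M => decide (N x ≤ cM x M)
  have hp : Computable₂ p := by
    have h1 : Primrec (fun y : ℕ × ℕ => decide (y.1 ≤ y.2)) := by fun_prop
    exact h1.to_comp.comp ((hN.comp Computable.fst).pair cM_comp)
  obtain ⟨G, cG, hG⟩ := Pool.Agent.H201.AD.Bnd.find_comp hp fun x => by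
    obtain ⟨i, l, r⟩ := x
    simp only [p, decide_eq_true_eq]
    by_cases hfin : (NS i l r).Finite
    · obtain ⟨M, hM⟩ := exists_bd hfin
      refine ⟨M, ?_⟩
      have h1 := hN2 i l r hfin
      have h2 := cM_eq i l r M
      have h3 : {z | z ∈ NS i l r ∧ ∀ t, z t ≤ M} = NS i l r := by
        ext z
        rw [Set.mem_ofPred_eq]
        exact ⟨fun hz => hz.1, fun hz => ⟨hz, hM z hz⟩⟩
      rw [h3, h1] at h2
      have h4 : N (i, l, r) = cM (i, l, r) M := by exact_mod_cast h2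
      exact h4.le
    · have h1 : (NS i l r).encard = ⊤ := Set.encard_eq_top_iff.2 hfin
      obtain ⟨A, hA, hA2⟩ := Set.exists_subset_encard_eq (s := NS i l r)
        (k := (N (i, l, r) : ℕ∞)) (by rw [h1]; exact le_top)
      have hAf : A.Finite := by
        rw [← Set.encard_lt_top_iff, hA2]
        exact ENat.natCast_lt_top _
      obtain ⟨M, hM⟩ := exists_bd hAf
      refine ⟨M, ?_⟩
      have h2 : A ⊆ {z | z ∈ NS i l r ∧ ∀ t, z t ≤ M} := fun z hz => ⟨hA hz, hM z hz⟩
      have h3 := Set.encard_le_encard h2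
      rw [hA2, cM_eq] at h3
      exact_mod_cast h3
  obtain ⟨F, hF, hF2⟩ := majorant cG
  refine ⟨F, hF, fun n _ => hmax_le fun i D hD z hz t => ?_⟩
  obtain ⟨l, r, h1, h2⟩ := hF2 n i D hD.1 hD.2.1 hD.2.2.1
  have hfin : (NS i l r).Finite := by
    rw [h1, ← Set.encard_lt_top_iff]
    exact (hD.2.2.2 n).2
  have h3 := hG (i, l, r)
  simp only [p, decide_eq_true_eq] at h3
  have h4 : (NS i l r).encard ≤ ({z | z ∈ NS i l r ∧ ∀ t, z t ≤ G (i, l, r)}).encard := by
    rw [hN2 i l r hfin, cM_eq]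
    exact_mod_cast h3
  have h7 : {z | z ∈ NS i l r ∧ ∀ t, z t ≤ G (i, l, r)} ⊆ NS i l r := by
    intro z hz
    rw [Set.mem_ofPred_eq] at hz
    exact hz.1
  have h5 : {z | z ∈ NS i l r ∧ ∀ t, z t ≤ G (i, l, r)} = NS i l r :=
    (hfin.subset h7).eq_of_subset_of_encard_le h7 h4
  have h6 : z ∈ {z | z ∈ NS i l r ∧ ∀ t, z t ≤ G (i, l, r)} := by
    rw [h5, h1]
    exact hz
  exact (h6.2 t).trans h2

attribute [local irreducible] chk in
/-- bounds for one solution from partial counting -/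
theorem decide_of_partial {N : Eqn →. ℕ} (hN : Partrec N) (hN2 : ∀ (i : ℕ) (l r : Side),
    (NS i l r).Finite → ∃ v ∈ N (i, l, r), (NS i l r).encard = (v : ℕ)) :
    ∃ S : Eqn → Bool, Computable S ∧ ∀ (i : ℕ) (l r : Side),
      (NS i l r = ∅ → S (i, l, r) = false) ∧
      ((NS i l r).Nonempty → (NS i l r).encard < ⊤ → S (i, l, r) = true) := by
  obtain ⟨st, cst, mst, vst⟩ := Pool.Agent.H201.AD.Bnd.nat_stages hN
  let p : Eqn → ℕ → Bool := fun x u => (st (u, x)).isSome || chk (x, u.unpair.1, u.unpair.2)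
  have u1 : Computable (fun z : Eqn × ℕ => z.2.unpair.1) :=
    (Primrec.fst.comp (Primrec.unpair.comp Primrec.snd)).to_comp
  have u2 : Computable (fun z : Eqn × ℕ => z.2.unpair.2) :=
    (Primrec.snd.comp (Primrec.unpair.comp Primrec.snd)).to_comp
  have cc : Computable (fun z : Eqn × ℕ => chk (z.1, z.2.unpair.1, z.2.unpair.2)) :=
    chk_primrec.to_comp.comp (Computable.fst.pair (u1.pair u2))
  have cs : Computable (fun z : Eqn × ℕ => st (z.2, z.1)) :=
    cst.comp (Computable.snd.pair Computable.fst)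
  have hp : Computable₂ p :=
    Primrec.or.to_comp.comp (Primrec.option_isSome.to_comp.comp cs) cc
  have code : ∀ (i : ℕ) (l r : Side), (NS i l r).Nonempty →
      ∃ u : ℕ, chk ((i, l, r), u.unpair.1, u.unpair.2) = true := by
    rintro i l r ⟨z, hz⟩
    obtain ⟨u, _, hu⟩ := exists_code z (M := ∑ t, z t) fun t =>
      Finset.single_le_sum (f := z) (fun _ _ => Nat.zero_le _) (Finset.mem_univ t)
    refine ⟨Nat.pair (∑ t, z t) u, ?_⟩
    rw [Nat.unpair_pair, chk_iff]
    have h3 : (fun t : Fin i => dig (∑ t, z t) u t) = z := funext hu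
    rw [h3]
    exact hz
  obtain ⟨f, hf, hf'⟩ := Pool.Agent.H201.AD.Bnd.find_comp hp fun x => by
    obtain ⟨i, l, r⟩ := x
    by_cases hfin : (NS i l r).Finite
    · obtain ⟨v, hv, _⟩ := hN2 i l r hfin
      obtain ⟨s, hs⟩ := (vst (i, l, r) v).2 hv
      exact ⟨s, by simp [p, hs]⟩
    · have h1 : (NS i l r).Nonempty := by
        rw [Set.nonempty_iff_ne_empty]
        intro h2
        rw [h2] at hfin
        exact hfin Set.finite_empty
      obtain ⟨u, hu⟩ := code i l r h1
      exact ⟨u, by simp [p, hu]⟩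
  have cf : Computable (fun x : Eqn => (x, f x)) := Computable.id.pair hf
  have cS : Computable (fun x : Eqn => chk (x, (f x).unpair.1, (f x).unpair.2) ||
      decide (1 ≤ (st (f x, x)).getD 0)) := by
    have h1 : Computable (fun x : Eqn => chk (x, (f x).unpair.1, (f x).unpair.2)) :=
      Computable.comp (f := fun z : Eqn × ℕ => chk (z.1, z.2.unpair.1, z.2.unpair.2))
        (g := fun x : Eqn => (x, f x)) cc cf
    have h0 : Computable (fun x : Eqn => st (f x, x)) :=
      Computable.comp (f := fun z : Eqn × ℕ => st (z.2, z.1)) (g := fun x : Eqn => (x, f x)) cs cf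
    have h2 : Computable (fun x : Eqn => (st (f x, x)).getD 0) :=
      Computable.option_getD h0 (Computable.const 0)
    have h3 : Primrec (fun n : ℕ => decide (1 ≤ n)) := by fun_prop
    have h4 : Computable (fun x : Eqn => decide (1 ≤ (st (f x, x)).getD 0)) :=
      Computable.comp (f := fun n : ℕ => decide (1 ≤ n)) (g := fun x : Eqn => (st (f x, x)).getD 0)
        h3.to_comp h2
    exact Primrec.or.to_comp.comp h1 h4
  refine ⟨_, cS, fun i l r => ⟨fun h1 => ?_, fun h1 h2 => ?_⟩⟩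
  · have h3 : chk ((i, l, r), (f (i, l, r)).unpair.1, (f (i, l, r)).unpair.2) = false := by
      rw [Bool.eq_false_iff]
      intro h4
      rw [chk_iff, h1] at h4
      exact h4
    have h5 : (st (f (i, l, r), (i, l, r))).getD 0 = 0 := by
      cases h6 : st (f (i, l, r), (i, l, r)) with
      | none => rfl
      | some w =>
        have h7 : w ∈ N (i, l, r) := (vst (i, l, r) w).1 ⟨_, h6⟩
        obtain ⟨v, hv, hv2⟩ := hN2 i l r (by rw [h1]; exact Set.finite_empty)
        have h8 : w = v := Part.mem_unique h7 hv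
        rw [h1, Set.encard_empty] at hv2
        have h9 : v = 0 := by exact_mod_cast hv2.symm
        simp [h8, h9]
    simp only [h3, h5, Bool.false_or]
    rfl
  · by_cases h3 : chk ((i, l, r), (f (i, l, r)).unpair.1, (f (i, l, r)).unpair.2) = true
    · simp only [h3, Bool.true_or]
    · have h4 := hf' (i, l, r)
      simp only [p, Bool.or_eq_true] at h4
      have h5 := h4.resolve_right h3
      obtain ⟨w, hw⟩ := Option.isSome_iff_exists.1 h5
      have h7 : w ∈ N (i, l, r) := (vst (i, l, r) w).1 ⟨_, hw⟩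
      obtain ⟨v, hv, hv2⟩ := hN2 i l r (Set.encard_lt_top_iff.1 h2)
      have h8 : w = v := Part.mem_unique h7 hv
      have h9 : (1 : ℕ∞) ≤ (v : ℕ∞) := by
        rw [← hv2]
        exact Set.one_le_encard_iff_nonempty.2 h1
      have h10 : 1 ≤ v := by exact_mod_cast h9
      rw [Bool.or_eq_true]
      right
      rw [hw, Option.getD_some, decide_eq_true_eq, h8]
      exact h10

end Pool.Agent.H201.HK
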