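import Pool.Agent.H201.HK.Size

/-!
# Diophantine equations with a parameter and the bounds for their solutions
-/

set_option autoImplicit false

namespace Pool.Agent.H201.HK

open MvPolynomial

/-- `D(x, x_1, ..., x_i)`; the variable `x` is `none` -/
abbrev Poly (i : ℕ) := MvPolynomial (Option (Fin i)) ℤ

/-- the point `(j, z)` -/
def pt {i : ℕ} (j : ℕ) (z : Fin i → ℕ) (o : Option (Fin i)) : ℤ := ((o.elim j z : ℕ) : ℤ)

/-- the solutions of `D(j, x_1, ..., x_i) = 0` -/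
def Sol {i : ℕ} (D : Poly i) (j : ℕ) : Set (Fin i → ℕ) := {z | eval (pt j z) D = 0}

def InB (κ : ℕ∞) (n : ℕ) {i : ℕ} (D : Poly i) : Prop :=
  i ≤ n ∧ D.totalDegree ≤ n ∧ (∀ m, |D.coeff m| ≤ n) ∧
    ∀ j, (Sol D j).Nonempty ∧ (Sol D j).encard < κ

/-- one solution is at most `b` -/
def Least (κ : ℕ∞) (n b : ℕ) : Prop :=
  ∀ (i : ℕ) (D : Poly i), InB κ n D → ∃ z ∈ Sol D n, ∀ t, z t ≤ b

/-- all solutions are at most `b` -/
def Largest (κ : ℕ∞) (n b : ℕ) : Prop :=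
  ∀ (i : ℕ) (D : Poly i), InB κ n D → ∀ z ∈ Sol D n, ∀ t, z t ≤ b

noncomputable def h (κ : ℕ∞) (n : ℕ) : ℕ := sInf {b | Least κ n b}

noncomputable def hmax (κ : ℕ∞) (n : ℕ) : ℕ := sInf {b | Largest κ n b}

lemma InB.mono {κ : ℕ∞} {n n' : ℕ} (hn : n ≤ n') {i : ℕ} {D : Poly i} (h : InB κ n D) :
    InB κ n' D :=
  ⟨h.1.trans hn, h.2.1.trans hn, fun m => (h.2.2.1 m).trans (by exact_mod_cast hn), h.2.2.2⟩

lemma fin_polys (i n : ℕ) : {D : Poly i | D.totalDegree ≤ n ∧ ∀ m, |D.coeff m| ≤ n}.Finite := by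
  classical
  let M : Set (Option (Fin i) →₀ ℕ) := {m | ∀ v, m v ≤ n}
  have hM : M.Finite := by
    have h1 : (Set.pi Set.univ fun _ : Option (Fin i) => Set.Iic n).Finite :=
      Set.Finite.pi fun _ => Set.finite_Iic n
    refine Set.Finite.of_injOn (f := fun m : Option (Fin i) →₀ ℕ => (m : Option (Fin i) → ℕ))
      (fun m hm => ?_) (fun a _ b _ h => DFunLike.coe_injective h) h1
    intro v _
    exact hm v
  have : Finite M := hM
  have h2 : (Set.pi Set.univ fun _ : M => Set.Icc (-(n : ℤ)) n).Finite :=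
    Set.Finite.pi fun _ => Set.finite_Icc _ _
  refine Set.Finite.of_injOn (f := fun D : Poly i => fun m : M => D.coeff m)
    (fun D hD => ?_) (fun D hD D' hD' h => ?_) h2
  · intro m _
    exact abs_le.1 (hD.2 m)
  · have h3 : ∀ (P : Poly i), P.totalDegree ≤ n → ∀ m, m ∉ M → P.coeff m = 0 := by
      intro P hP m hm
      by_contra hc
      apply hm
      intro v
      refine le_trans ?_ ((le_totalDegree (mem_support_iff.2 hc)).trans hP)
      by_cases hv : v ∈ m.support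
      · exact Finset.single_le_sum (f := fun v => m v) (fun _ _ => Nat.zero_le _) hv
      · rw [Finsupp.notMem_support_iff.1 hv]
        exact Nat.zero_le _
    ext m
    by_cases hm : m ∈ M
    · exact congrFun h ⟨m, hm⟩
    · rw [h3 D hD.1 m hm, h3 D' hD'.1 m hm]

lemma exists_largest (κ : ℕ∞) (n : ℕ) : ∃ b, Largest κ n b := by
  classical
  have h1 : ∀ i : ℕ, ∃ b, ∀ D : Poly i, InB κ n D → ∀ z ∈ Sol D n, ∀ t, z t ≤ b := by
    intro i
    have h2 : ∀ D : Poly i, ∃ b, InB κ n D → ∀ z ∈ Sol D n, ∀ t, z t ≤ b := by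
      intro D
      by_cases hD : InB κ n D
      · have h3 : (Sol D n).Finite := by
          rw [← Set.encard_lt_top_iff]
          exact (hD.2.2.2 n).2.trans_le le_top
        refine ⟨∑ z ∈ h3.toFinset, ∑ t, z t, fun _ z hz t => ?_⟩
        have h4 : z t ≤ ∑ t, z t :=
          Finset.single_le_sum (f := z) (fun _ _ => Nat.zero_le _) (Finset.mem_univ t)
        exact h4.trans (Finset.single_le_sum (f := fun z : Fin i → ℕ => ∑ t, z t)
          (fun _ _ => Nat.zero_le _) (h3.mem_toFinset.2 hz))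
      · exact ⟨0, fun h => absurd h hD⟩
    choose g hg using h2
    refine ⟨∑ D ∈ (fin_polys i n).toFinset, g D, fun D hD z hz t => (hg D hD z hz t).trans ?_⟩
    exact Finset.single_le_sum (f := g) (fun _ _ => Nat.zero_le _)
      ((fin_polys i n).mem_toFinset.2 ⟨hD.2.1, hD.2.2.1⟩)
  choose g hg using h1
  refine ⟨∑ i ∈ Finset.range (n + 1), g i, fun i D hD z hz t => (hg i D hD z hz t).trans ?_⟩
  exact Finset.single_le_sum (f := g) (fun _ _ => Nat.zero_le _)
    (Finset.mem_range.2 (Nat.lt_succ_of_le hD.1))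

lemma largest_hmax (κ : ℕ∞) (n : ℕ) : Largest κ n (hmax κ n) := Nat.sInf_mem (exists_largest κ n)

lemma least_of_largest {κ : ℕ∞} {n b : ℕ} (h : Largest κ n b) : Least κ n b := fun i D hD => by
  obtain ⟨z, hz⟩ := (hD.2.2.2 n).1
  exact ⟨z, hz, h i D hD z hz⟩

lemma least_h (κ : ℕ∞) (n : ℕ) : Least κ n (h κ n) := by
  have h1 : ∃ b, Least κ n b := by
    obtain ⟨b, hb⟩ := exists_largest κ n
    exact ⟨b, least_of_largest hb⟩
  exact Nat.sInf_mem h1

lemma h_le {κ : ℕ∞} {n b : ℕ} (hb : Least κ n b) : h κ n ≤ b := Nat.sInf_le hb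

lemma hmax_le {κ : ℕ∞} {n b : ℕ} (hb : Largest κ n b) : hmax κ n ≤ b := Nat.sInf_le hb

lemma h_le_hmax (κ : ℕ∞) (n : ℕ) : h κ n ≤ hmax κ n := h_le (least_of_largest (largest_hmax κ n))

lemma h_mono {κ κ' : ℕ∞} (hκ : κ ≤ κ') (n : ℕ) : h κ n ≤ h κ' n :=
  h_le fun i D hD => least_h κ' n i D
    ⟨hD.1, hD.2.1, hD.2.2.1, fun j => ⟨(hD.2.2.2 j).1, (hD.2.2.2 j).2.trans_le hκ⟩⟩

/-! ### constant parameters -/

lemma eval_bind {σ τ : Type*} (p : τ → ℤ) (f : σ → MvPolynomial τ ℤ) (P : MvPolynomial σ ℤ) :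
    eval p (aeval f P) = eval (fun v => eval p (f v)) P :=
  eval₂Hom_bind₁ (RingHom.id ℤ) p f P

/-- `D(a, x_1, ..., x_i)` -/
noncomputable def cst {i : ℕ} (D : Poly i) (a : ℕ) : Poly i :=
  aeval (fun o : Option (Fin i) => o.elim (C (a : ℤ)) fun t => X (some t)) D

lemma sol_cst {i : ℕ} (D : Poly i) (a j : ℕ) : Sol (cst D a) j = Sol D a := by
  ext z
  unfold Sol cst
  rw [Set.mem_ofPred_eq, Set.mem_ofPred_eq, eval_bind]
  have : (fun v => eval (pt j z) ((fun o : Option (Fin i) =>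
      o.elim (C (a : ℤ)) fun t => (X (some t) : Poly i)) v)) = pt a z := by
    funext o
    cases o with
    | none => simp [pt]
    | some t => simp [pt]
  rw [this]

/-- the size of `D(n, ...)` -/
lemma len_bound {n i : ℕ} (hn : 1 ≤ n) (hi : i ≤ n) {D : Poly i} (hd : D.totalDegree ≤ n)
    (hc : ∀ m, |D.coeff m| ≤ n) : len D * n ^ n ≤ (n + 1) ^ (2 * n + 2) := by
  have h1 := len_le hd hc
  rw [Fintype.card_option, Fintype.card_fin] at h1
  have h2 : (n + 1) ^ (i + 1) ≤ (n + 1) ^ (n + 1) := Nat.pow_le_pow_right (by omega) (by omega)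
  have h3 : n ^ (n + 1) ≤ (n + 1) ^ (n + 1) := Nat.pow_le_pow_left (by omega) _
  calc len D * n ^ n ≤ ((n + 1) ^ (i + 1) * n) * n ^ n := Nat.mul_le_mul_right _ h1
    _ = (n + 1) ^ (i + 1) * n ^ (n + 1) := by ring
    _ ≤ (n + 1) ^ (n + 1) * (n + 1) ^ (n + 1) := Nat.mul_le_mul h2 h3
    _ = (n + 1) ^ (2 * n + 2) := by rw [← pow_add]; congr 1; ring

lemma coeff_abs_le {σ : Type*} {P : MvPolynomial σ ℤ} {c : ℕ} (h : len P ≤ c) (m : σ →₀ ℕ) :
    |P.coeff m| ≤ c := by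
  rw [Int.abs_eq_natAbs]
  exact_mod_cast (coeff_le_len P m).trans h

lemma self_le_pow {n : ℕ} {e : ℕ} (he : 1 ≤ e) : n + 1 ≤ (n + 1) ^ e := Nat.le_self_pow (by omega) _

lemma inB_cst {κ : ℕ∞} {n n' i : ℕ} (hn : 1 ≤ n) (hn' : (n + 1) ^ (2 * n + 2) ≤ n') {D : Poly i}
    (hD : InB κ n D) : InB κ n' (cst D n) := by
  classical
  obtain ⟨h1, h2, h3, h4⟩ := hD
  have h5 : n + 1 ≤ (n + 1) ^ (2 * n + 2) := self_le_pow (by omega)
  have hM : ∀ v : Option (Fin i), len (v.elim (C (n : ℤ)) fun t => (X (some t) : Poly i)) ≤ n := by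
    intro v
    cases v with
    | none => exact (len_C (n : ℤ)).le
    | some t => exact (len_X (some t)).le.trans hn
  have hE : ∀ v : Option (Fin i),
      (v.elim (C (n : ℤ)) fun t => (X (some t) : Poly i)).totalDegree ≤ 1 := by
    intro v
    cases v with
    | none => exact (totalDegree_C (n : ℤ)).le.trans (Nat.zero_le _)
    | some t => exact (totalDegree_X (some t)).le
  refine ⟨by omega, ?_, fun m => coeff_abs_le ?_ m, fun j => ?_⟩
  · have := deg_aeval _ D hE h2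
    unfold cst
    omega
  · have h6 := len_aeval _ D hM hn h2
    unfold cst
    exact h6.trans ((len_bound hn h1 h2 h3).trans hn')
  · rw [sol_cst]
    exact h4 n

/-- a bound for large `n'` is a bound for `n` -/
lemma h_le_of_le (κ : ℕ∞) {n n' : ℕ} (hn : 1 ≤ n) (hn' : (n + 1) ^ (2 * n + 2) ≤ n') :
    h κ n ≤ h κ n' := by
  refine h_le fun i D hD => ?_
  obtain ⟨z, hz, hb⟩ := least_h κ n' i (cst D n) (inB_cst hn hn' hD)
  rw [sol_cst] at hz
  exact ⟨z, hz, hb⟩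

end Pool.Agent.H201.HK
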