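import Pool.Agent.H201.HK.Eqn

/-!
# Enumeration of the equations of bounded size
-/

set_option autoImplicit false

namespace Pool.Agent.H201.HK

open MvPolynomial
open Pool.Agent.Q324.SC

/-- the exponents of the unknowns -/
def exps (i n s : ℕ) : List ℕ := (List.range i).map fun t => dig n s (t + 1)

/-- the positive coefficients, at the parameter `a` -/
def lf (i n a j : ℕ) : Side := (List.range ((n + 1) ^ (i + 1))).map fun s =>
  ((dig (2 * n) j s - n) * a ^ dig n s 0, exps i n s)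

/-- the negative coefficients, at the parameter `a` -/
def rt (i n a j : ℕ) : Side := (List.range ((n + 1) ^ (i + 1))).map fun s =>
  ((n - dig (2 * n) j s) * a ^ dig n s 0, exps i n s)

lemma sum_range_map (f : ℕ → ℕ) (k : ℕ) :
    ((List.range k).map f).sum = ∑ s ∈ Finset.range k, f s := by
  induction k with
  | zero => simp
  | succ k ih =>
    rw [List.range_succ, List.map_append, List.sum_append, ih, Finset.sum_range_succ]
    simp

lemma exps_getD {i : ℕ} (n s : ℕ) (t : Fin i) : (exps i n s).getD t 0 = dig n s (t + 1) := by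
  unfold exps
  rw [List.getD_eq_getElem _ _ (by simp)]
  simp

/-- the value of the term number `s` without its coefficient -/
def trm (n a s : ℕ) {i : ℕ} (z : Fin i → ℕ) : ℕ :=
  a ^ dig n s 0 * ∏ t : Fin i, z t ^ dig n s (t + 1)

lemma val_lf (i n a j : ℕ) (z : Fin i → ℕ) : val (lf i n a j) z =
    ∑ s ∈ Finset.range ((n + 1) ^ (i + 1)), (dig (2 * n) j s - n) * trm n a s z := by
  unfold val lf
  rw [List.map_map, ← sum_range_map]
  congr 1
  refine List.map_congr_left fun s _ => ?_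
  simp only [Function.comp, exps_getD, trm]
  ring

lemma val_rt (i n a j : ℕ) (z : Fin i → ℕ) : val (rt i n a j) z =
    ∑ s ∈ Finset.range ((n + 1) ^ (i + 1)), (n - dig (2 * n) j s) * trm n a s z := by
  unfold val rt
  rw [List.map_map, ← sum_range_map]
  congr 1
  refine List.map_congr_left fun s _ => ?_
  simp only [Function.comp, exps_getD, trm]
  ring

/-- the monomial number `s` -/
noncomputable def mon (i n s : ℕ) : Option (Fin i) →₀ ℕ :=
  Finsupp.equivFunOnFinite.symm fun o => o.elim (dig n s 0) fun t => dig n s (t + 1)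

lemma mon_inj {i n s s' : ℕ} (hs : s < (n + 1) ^ (i + 1)) (hs' : s' < (n + 1) ^ (i + 1))
    (h : mon i n s = mon i n s') : s = s' := by
  have h0 : ∀ o, mon i n s o = mon i n s' o := fun o => by rw [h]
  rw [eq_sum_dig n _ s hs, eq_sum_dig n _ s' hs']
  refine Finset.sum_congr rfl fun t ht => ?_
  rw [Finset.mem_range] at ht
  congr 1
  cases t with
  | zero => exact h0 none
  | succ t => exact h0 (some ⟨t, by omega⟩)

lemma mon_surj {i n : ℕ} {m : Option (Fin i) →₀ ℕ} (hm : ∀ o, m o ≤ n) :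
    ∃ s < (n + 1) ^ (i + 1), mon i n s = m := by
  obtain ⟨u, hu, hu2⟩ := exists_code (i := i + 1) (M := n)
    (Fin.cons (m none) fun t => m (some t)) (fun t => by
      refine Fin.cases ?_ (fun t => ?_) t
      · exact hm none
      · exact hm (some t))
  refine ⟨u, hu, ?_⟩
  ext o
  cases o with
  | none => exact hu2 0
  | some t =>
    have := hu2 t.succ
    rw [Fin.val_succ] at this
    exact this

/-- each `D(a, ...)` is in the list -/
lemma exists_inpt {n i : ℕ} {D : Poly i} (hd : D.totalDegree ≤ n) (hc : ∀ m, |D.coeff m| ≤ n) :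
    ∃ j < (2 * n + 1) ^ ((n + 1) ^ (i + 1)), ∀ a, NS i (lf i n a j) (rt i n a j) = Sol D a := by
  classical
  have hc2 : ∀ m, ((D.coeff m + n).toNat : ℤ) = D.coeff m + n ∧ (D.coeff m + n).toNat ≤ 2 * n := by
    intro m
    have h1 := abs_le.1 (hc m)
    omega
  obtain ⟨j, hj, hj2⟩ := exists_code (i := (n + 1) ^ (i + 1)) (M := 2 * n)
    (fun s => (D.coeff (mon i n s) + n).toNat) (fun s => (hc2 _).2)
  refine ⟨j, hj, fun a => ?_⟩
  ext z
  unfold NS Sol
  rw [Set.mem_ofPred_eq, Set.mem_ofPred_eq, val_lf, val_rt]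
  have e1 : eval (pt a z) D = ∑ s ∈ Finset.range ((n + 1) ^ (i + 1)),
      D.coeff (mon i n s) * (trm n a s z : ℤ) := by
    rw [eval_eq']
    have h1 : D.support ⊆ (Finset.range ((n + 1) ^ (i + 1))).image (mon i n) := by
      intro m hm
      rw [Finset.mem_image]
      obtain ⟨s, hs, hs2⟩ := mon_surj (i := i) (n := n) (m := m) fun v => by
        refine le_trans ?_ ((le_totalDegree hm).trans hd)
        by_cases hv : v ∈ m.support
        · exact Finset.single_le_sum (f := fun v => m v) (fun _ _ => Nat.zero_le _) hv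
        · rw [Finsupp.notMem_support_iff.1 hv]
          exact Nat.zero_le _
      exact ⟨s, Finset.mem_range.2 hs, hs2⟩
    rw [Finset.sum_subset h1 fun m _ hm => by rw [notMem_support_iff.1 hm, zero_mul],
      Finset.sum_image fun s hs s' hs' h => mon_inj (Finset.mem_range.1 hs)
        (Finset.mem_range.1 hs') h]
    refine Finset.sum_congr rfl fun s _ => ?_
    congr 1
    rw [Fintype.prod_option]
    unfold trm
    push_cast
    rfl
  have e2 : eval (pt a z) D =
      ((∑ s ∈ Finset.range ((n + 1) ^ (i + 1)), (dig (2 * n) j s - n) * trm n a s z : ℕ) : ℤ) -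
      ((∑ s ∈ Finset.range ((n + 1) ^ (i + 1)), (n - dig (2 * n) j s) * trm n a s z : ℕ) : ℤ) := by
    rw [e1, Nat.cast_sum, Nat.cast_sum, ← Finset.sum_sub_distrib]
    refine Finset.sum_congr rfl fun s hs => ?_
    rw [Nat.cast_mul, Nat.cast_mul, ← sub_mul]
    congr 1
    have h1 := hj2 ⟨s, Finset.mem_range.1 hs⟩
    have h2 := (hc2 (mon i n s)).1
    simp only at h1
    rw [h1]
    omega
  rw [e2]
  omega

lemma exps_primrec : Primrec (fun x : ℕ × ℕ × ℕ => exps x.1 x.2.1 x.2.2) := by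
  unfold exps dig
  exact pmap (by fun_prop) (by fun_prop)

attribute [local irreducible] exps in
lemma inpt_primrec : Primrec (fun x : ℕ × ℕ × ℕ × ℕ =>
    ((x.1, lf x.1 x.2.1 x.2.2.1 x.2.2.2, rt x.1 x.2.1 x.2.2.1 x.2.2.2) : Eqn)) := by
  have h0 : Primrec (fun y : (ℕ × ℕ × ℕ × ℕ) × ℕ => exps y.1.1 y.1.2.1 y.2) :=
    exps_primrec.comp (g := fun y : (ℕ × ℕ × ℕ × ℕ) × ℕ => (y.1.1, y.1.2.1, y.2)) (by fun_prop)
  have h1 : Primrec (fun x : ℕ × ℕ × ℕ × ℕ => lf x.1 x.2.1 x.2.2.1 x.2.2.2) := by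
    unfold lf dig
    refine pmap (by fun_prop) (Primrec.pair (by fun_prop) h0)
  have h2 : Primrec (fun x : ℕ × ℕ × ℕ × ℕ => rt x.1 x.2.1 x.2.2.1 x.2.2.2) := by
    unfold rt dig
    refine pmap (by fun_prop) (Primrec.pair (by fun_prop) h0)
  exact Primrec.fst.pair (h1.pair h2)

attribute [local irreducible] lf rt in
/-- from decisions to bounds -/
theorem bound_of_decide {κ : ℕ∞} {S : Eqn → Bool} (hS : Computable S)
    (hS2 : ∀ (i : ℕ) (l r : Side), (NS i l r = ∅ → S (i, l, r) = false) ∧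
      ((NS i l r).Nonempty → (NS i l r).encard < κ → S (i, l, r) = true)) :
    ∃ F : ℕ → ℕ, Computable F ∧ ∀ n, 1 ≤ n → h κ n ≤ F n := by
  let p : Eqn → ℕ → Bool := fun x u => !S x || chk (x, u.unpair.1, u.unpair.2)
  have hp : Computable₂ p := by
    have u1 : Computable (fun z : Eqn × ℕ => z.2.unpair.1) :=
      (Primrec.fst.comp (Primrec.unpair.comp Primrec.snd)).to_comp
    have u2 : Computable (fun z : Eqn × ℕ => z.2.unpair.2) :=
      (Primrec.snd.comp (Primrec.unpair.comp Primrec.snd)).to_comp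
    exact Primrec.or.to_comp.comp (Primrec.not.to_comp.comp (hS.comp Computable.fst))
      (chk_primrec.to_comp.comp (Computable.fst.pair (u1.pair u2)))
  obtain ⟨f, hf, hf'⟩ := Pool.Agent.H201.AD.Bnd.find_comp hp fun x => by
    obtain ⟨i, l, r⟩ := x
    cases hx : S (i, l, r) with
    | false => exact ⟨0, by simp [p, hx]⟩
    | true =>
      have h1 : (NS i l r).Nonempty := by
        rw [Set.nonempty_iff_ne_empty]
        intro h2
        rw [(hS2 i l r).1 h2] at hx
        exact Bool.noConfusion hx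
      obtain ⟨z, hz⟩ := h1
      obtain ⟨u, _, hu⟩ := exists_code z (M := ∑ t, z t) fun t =>
        Finset.single_le_sum (f := z) (fun _ _ => Nat.zero_le _) (Finset.mem_univ t)
      refine ⟨Nat.pair (∑ t, z t) u, ?_⟩
      simp only [p, Nat.unpair_pair]
      rw [Bool.or_eq_true, chk_iff]
      right
      have h3 : (fun t : Fin i => dig (∑ t, z t) u t) = z := funext hu
      rw [h3]
      exact hz
  obtain ⟨G, hG⟩ : ∃ G : Eqn → ℕ, G = fun x => (f x).unpair.1 := ⟨_, rfl⟩
  have cG : Computable G := by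
    rw [hG]
    exact (Primrec.fst.comp Primrec.unpair).to_comp.comp hf
  have hG2 : ∀ (i : ℕ) (l r : Side), (NS i l r).Nonempty → (NS i l r).encard < κ →
      ∃ z ∈ NS i l r, ∀ t, z t ≤ G (i, l, r) := by
    intro i l r h1 h2
    have h3 := hf' (i, l, r)
    simp only [p] at h3
    rw [(hS2 i l r).2 h1 h2, Bool.not_true, Bool.false_or, chk_iff] at h3
    refine ⟨_, h3, fun t => ?_⟩
    rw [hG]
    exact dig_le _ _ _
  have c1 : Computable (fun x : (ℕ × ℕ) × ℕ =>
      G (x.1.2, lf x.1.2 x.1.1 x.1.1 x.2, rt x.1.2 x.1.1 x.1.1 x.2)) :=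
    cG.comp (inpt_primrec.to_comp.comp (f := fun x : ℕ × ℕ × ℕ × ℕ =>
      ((x.1, lf x.1 x.2.1 x.2.2.1 x.2.2.2, rt x.1 x.2.1 x.2.2.1 x.2.2.2) : Eqn))
      (g := fun x : (ℕ × ℕ) × ℕ => (x.1.2, x.1.1, x.1.1, x.2))
      ((Computable.snd.comp Computable.fst).pair
        ((Computable.fst.comp Computable.fst).pair
          ((Computable.fst.comp Computable.fst).pair Computable.snd))))
  have c2 : Computable (fun x : ℕ × ℕ => gmax (fun j => G (x.2, lf x.2 x.1 x.1 j, rt x.2 x.1 x.1 j))
      ((2 * x.1 + 1) ^ ((x.1 + 1) ^ (x.2 + 1)))) := by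
    have h1 : Primrec (fun x : ℕ × ℕ => (2 * x.1 + 1) ^ ((x.1 + 1) ^ (x.2 + 1))) := by fun_prop
    exact gmax_comp (f := fun (x : ℕ × ℕ) j => G (x.2, lf x.2 x.1 x.1 j, rt x.2 x.1 x.1 j)) c1 h1.to_comp
  have c3 : Computable (fun n : ℕ => gmax (fun i => gmax (fun j => G (i, lf i n n j, rt i n n j))
      ((2 * n + 1) ^ ((n + 1) ^ (i + 1)))) (n + 1)) :=
    gmax_comp (f := fun (n : ℕ) i => gmax (fun j => G (i, lf i n n j, rt i n n j))
      ((2 * n + 1) ^ ((n + 1) ^ (i + 1)))) c2 Computable.succ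
  refine ⟨_, c3, fun n _ => h_le fun i D hD => ?_⟩
  obtain ⟨j, hj, hj3⟩ := exists_inpt hD.2.1 hD.2.2.1
  have hj2 := hj3 n
  have hs := hD.2.2.2 n
  rw [← hj2] at hs
  obtain ⟨z, hz, hb⟩ := hG2 i (lf i n n j) (rt i n n j) hs.1 hs.2
  rw [hj2] at hz
  refine ⟨z, hz, fun t => (hb t).trans ?_⟩
  refine le_trans ?_ (le_gmax (fun i => gmax (fun j => G (i, lf i n n j, rt i n n j))
      ((2 * n + 1) ^ ((n + 1) ^ (i + 1)))) (Nat.lt_succ_of_le hD.1))
  exact le_gmax (fun j => G (i, lf i n n j, rt i n n j)) hj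

attribute [local irreducible] lf rt in
/-- from decisions to the decidability of the sets with representations -/
theorem decide_rep {κ : ℕ∞} {S : Eqn → Bool} (hS : Computable S)
    (hS2 : ∀ (i : ℕ) (l r : Side), (NS i l r = ∅ → S (i, l, r) = false) ∧
      ((NS i l r).Nonempty → (NS i l r).encard < κ → S (i, l, r) = true)) {i : ℕ} (W : Poly i)
    (hW : ∀ a, (Sol W a).encard < κ) : ComputablePred fun a : ℕ => (Sol W a).Nonempty := by
  classical
  obtain ⟨j, _, hj⟩ := exists_inpt (n := W.totalDegree + len W) (D := W) (Nat.le_add_right _ _)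
    fun m => coeff_abs_le (Nat.le_add_left _ _) m
  obtain ⟨n, hn⟩ : ∃ n, n = W.totalDegree + len W := ⟨_, rfl⟩
  rw [← hn] at hj
  refine ⟨inferInstance, ?_⟩
  have c1 : Computable (fun a : ℕ => S (i, lf i n a j, rt i n a j)) :=
    hS.comp (inpt_primrec.to_comp.comp (f := fun x : ℕ × ℕ × ℕ × ℕ =>
      ((x.1, lf x.1 x.2.1 x.2.2.1 x.2.2.2, rt x.1 x.2.1 x.2.2.1 x.2.2.2) : Eqn))
      (g := fun a : ℕ => (i, n, a, j))
      ((Computable.const i).pair ((Computable.const n).pair
        (Computable.id.pair (Computable.const j)))))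
  refine c1.of_eq fun a => ?_
  rw [Bool.eq_iff_iff, decide_eq_true_eq]
  have h1 := hS2 i (lf i n a j) (rt i n a j)
  rw [hj a] at h1
  constructor
  · intro h2
    change (Sol W a).Nonempty
    rw [Set.nonempty_iff_ne_empty]
    intro h3
    rw [h1.1 h3] at h2
    exact Bool.noConfusion h2
  · exact fun h2 => h1.2 h2 (hW a)

/-! ### counting -/

lemma encard_eq {i M : ℕ} {l r : Side} (h : ∀ z ∈ NS i l r, ∀ t, z t ≤ M) :
    (NS i l r).encard = (cnt (fun u => chk ((i, l, r), M, u)) ((M + 1) ^ i) : ℕ) := by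
  classical
  rw [cnt_eq]
  have h1 : NS i l r = (fun u => (fun t : Fin i => dig M u t)) ''
      (((Finset.range ((M + 1) ^ i)).filter fun u => chk ((i, l, r), M, u) = true : Finset ℕ) :
        Set ℕ) := by
    ext z
    rw [Set.mem_image]
    constructor
    · intro hz
      obtain ⟨u, hu, hu2⟩ := exists_code z (h z hz)
      have h2 : (fun t : Fin i => dig M u t) = z := funext hu2
      refine ⟨u, Finset.mem_coe.2 (Finset.mem_filter.2 ⟨Finset.mem_range.2 hu, ?_⟩), h2⟩
      rw [chk_iff, h2]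
      exact hz
    · rintro ⟨u, hu, rfl⟩
      have h2 := (Finset.mem_filter.1 (Finset.mem_coe.1 hu)).2
      rwa [chk_iff] at h2
  conv_lhs => rw [h1]
  rw [Set.InjOn.encard_image, Set.encard_coe_eq_coe_finsetCard]
  intro u hu u' hu' huu
  have h2 := Finset.mem_range.1 (Finset.mem_filter.1 (Finset.mem_coe.1 hu)).1
  have h3 := Finset.mem_range.1 (Finset.mem_filter.1 (Finset.mem_coe.1 hu')).1
  rw [eq_sum_dig M _ u h2, eq_sum_dig M _ u' h3]
  refine Finset.sum_congr rfl fun t ht => ?_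
  congr 1
  exact congrFun huu ⟨t, Finset.mem_range.1 ht⟩

/-- the number of the solutions can be computed -/
theorem count_of_bound {F : ℕ × ℕ → ℕ} (hF : Computable F)
    (h : ∀ k n : ℕ, 2 ≤ k → 1 ≤ n → hmax k n ≤ F (k, n)) :
    ∃ N : ℕ × Eqn → ℕ, Computable N ∧ ∀ (k i : ℕ) (l r : Side), (NS i l r).encard < k →
      (NS i l r).encard = N (k, i, l, r) := by
  have cM : Computable (fun p : ℕ × Eqn => F (p.1, siz p.2)) :=
    hF.comp (Computable.fst.pair (siz_primrec.to_comp.comp Computable.snd))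
  have c1 : Computable (fun x : (ℕ × Eqn) × ℕ => chk (x.1.2, F (x.1.1, siz x.1.2), x.2)) :=
    chk_primrec.to_comp.comp ((Computable.snd.comp Computable.fst).pair
      ((cM.comp Computable.fst).pair Computable.snd))
  have c2 : Computable (fun p : ℕ × Eqn => (F (p.1, siz p.2) + 1) ^ p.2.1) := by
    have h1 : Primrec (fun p : ℕ × ℕ => (p.1 + 1) ^ p.2) := by fun_prop
    exact h1.to_comp.comp (cM.pair (Computable.fst.comp Computable.snd))
  have c3 := cnt_comp (f := fun (p : ℕ × Eqn) u => chk (p.2, F (p.1, siz p.2), u)) c1 c2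
  refine ⟨_, c3, fun k i l r hk => ?_⟩
  refine encard_eq fun z hz t => ?_
  have h1 : (NS i l r).Nonempty := ⟨z, hz⟩
  have hk2 : 2 ≤ k := by
    have h2 : (1 : ℕ∞) ≤ (NS i l r).encard := Set.one_le_encard_iff_nonempty.2 h1
    have h3 : (1 : ℕ∞) < k := lt_of_le_of_lt h2 hk
    exact_mod_cast h3
  refine le_trans ?_ (h k (siz (i, l, r)) hk2 (by unfold siz; omega))
  refine largest_hmax k (siz (i, l, r)) i _ (inB_sp h1 hk) z ?_ t
  rw [sol_sp]
  exact hz

end Pool.Agent.H201.HK
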