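import Pool.Agent.H201.HK.Main
import Pool.Graph.R_pool_sql_team_seeded_2aa45f1a.Q324.SC.Plane

/-!
# Coded equations between polynomials with natural coefficients
-/

set_option autoImplicit false

namespace Pool.Agent.H201.HK

open MvPolynomial
open Pool.Agent.Q324.SC

/-- a list of terms `a x_1^(e_1) x_2^(e_2) ...` -/
abbrev Side := List (ℕ × List ℕ)

/-- the value at `z` -/
def val (l : Side) {i : ℕ} (z : Fin i → ℕ) : ℕ :=
  (l.map fun x => x.1 * ∏ t, z t ^ x.2.getD t 0).sum

/-- the solutions -/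
def NS (i : ℕ) (l r : Side) : Set (Fin i → ℕ) := {z | val l z = val r z}

/-- the value, by lists -/
def sval (l : Side) (i : ℕ) (z : ℕ → ℕ) : ℕ :=
  (l.map fun x => x.1 * ((List.range i).map fun t => z t ^ x.2.getD t 0).prod).sum

lemma prod_range_map (f : ℕ → ℕ) (i : ℕ) :
    ((List.range i).map f).prod = ∏ t : Fin i, f t := by
  rw [← Finset.prod_range]
  induction i with
  | zero => simp
  | succ i ih =>
    rw [List.range_succ, List.map_append, List.prod_append, ih, Finset.prod_range_succ]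
    simp

lemma sval_eq (l : Side) {i : ℕ} (z : ℕ → ℕ) : sval l i z = val l (fun t : Fin i => z t) := by
  unfold sval val
  congr 1
  refine List.map_congr_left fun x _ => ?_
  rw [prod_range_map (fun t => z t ^ x.2.getD t 0)]

/-! ### the polynomial of a side -/

noncomputable def mono (i : ℕ) (x : ℕ × List ℕ) : Poly i :=
  C (x.1 : ℤ) * ∏ t : Fin i, X (some t) ^ x.2.getD t 0

noncomputable def sp (i : ℕ) (l : Side) : Poly i := (l.map (mono i)).sum

lemma eval_sp {i : ℕ} (j : ℕ) (z : Fin i → ℕ) (l : Side) :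
    eval (pt j z) (sp i l) = (val l z : ℤ) := by
  unfold sp val
  induction l with
  | nil => simp
  | cons x l ih =>
    rw [List.map_cons, List.sum_cons, map_add, ih, List.map_cons, List.sum_cons]
    have h1 : eval (pt j z) (mono i x) = ((x.1 * ∏ t, z t ^ x.2.getD t 0 : ℕ) : ℤ) := by
      unfold mono
      rw [map_mul, eval_C, map_prod]
      push_cast
      congr 1
      refine Finset.prod_congr rfl fun t _ => ?_
      rw [map_pow, eval_X]
      rfl
    rw [h1]
    push_cast
    ring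

lemma len_mono (i : ℕ) (x : ℕ × List ℕ) : len (mono i x) ≤ x.1 := by
  classical
  unfold mono
  refine (len_mul _ _).trans ?_
  have h1 := len_prod_pow (fun t : Fin i => (X (some t) : Poly i)) (M := 1) (fun v => (len_X _).le)
    Finset.univ (fun t => x.2.getD t 0)
  rw [Nat.one_pow] at h1
  rw [len_C]
  exact (Nat.mul_le_mul_left _ h1).trans (by simp)

lemma getD_le_sum (e : List ℕ) (t : ℕ) : e.getD t 0 ≤ e.sum := by
  rcases Nat.lt_or_ge t e.length with h | h
  · rw [List.getD_eq_getElem _ _ h]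
    exact List.le_sum_of_mem (List.getElem_mem h)
  · rw [List.getD_eq_default _ _ h]
    exact Nat.zero_le _

lemma deg_mono (i : ℕ) (x : ℕ × List ℕ) : (mono i x).totalDegree ≤ i * x.2.sum := by
  unfold mono
  refine (totalDegree_mul _ _).trans ?_
  rw [totalDegree_C, Nat.zero_add]
  have h1 := deg_prod_pow (fun t : Fin i => (X (some t) : Poly i)) (E := 1)
    (fun v => (totalDegree_X _).le) Finset.univ (fun t => x.2.getD t 0)
  refine h1.trans ?_
  rw [Nat.one_mul]
  refine (Finset.sum_le_card_nsmul _ _ x.2.sum fun t _ => getD_le_sum _ _).trans ?_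
  simp

lemma len_sp (i : ℕ) (l : Side) : len (sp i l) ≤ (l.map fun x => x.1).sum := by
  classical
  unfold sp
  induction l with
  | nil => simp [len_zero]
  | cons x l ih =>
    rw [List.map_cons, List.sum_cons, List.map_cons, List.sum_cons]
    exact (len_add _ _).trans (Nat.add_le_add (len_mono i x) ih)

lemma deg_sp (i : ℕ) (l : Side) : (sp i l).totalDegree ≤ i * (l.map fun x => x.2.sum).sum := by
  unfold sp
  induction l with
  | nil => simp
  | cons x l ih =>
    rw [List.map_cons, List.sum_cons, List.map_cons, List.sum_cons]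
    refine (totalDegree_add _ _).trans (max_le ?_ ?_)
    · exact (deg_mono i x).trans (Nat.mul_le_mul_left _ (Nat.le_add_right _ _))
    · exact ih.trans (Nat.mul_le_mul_left _ (Nat.le_add_left _ _))

/-- inputs -/
abbrev Eqn := ℕ × Side × Side

/-- the size -/
def siz (p : Eqn) : ℕ :=
  p.1 + ((p.2.1.map fun x => x.1).sum + (p.2.2.map fun x => x.1).sum) +
    p.1 * ((p.2.1.map fun x => x.2.sum).sum + (p.2.2.map fun x => x.2.sum).sum) + 1

lemma sol_sp {i : ℕ} (l r : Side) (j : ℕ) : Sol (sp i l - sp i r) j = NS i l r := by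
  ext z
  unfold Sol NS
  rw [Set.mem_ofPred_eq, Set.mem_ofPred_eq, map_sub, eval_sp, eval_sp]
  omega

lemma inB_sp {κ : ℕ∞} {i : ℕ} {l r : Side} (h1 : (NS i l r).Nonempty) (h2 : (NS i l r).encard < κ) :
    InB κ (siz (i, l, r)) (sp i l - sp i r) := by
  classical
  obtain ⟨a, ha⟩ : ∃ a, a = (l.map fun x => x.1).sum := ⟨_, rfl⟩
  obtain ⟨b, hb⟩ : ∃ b, b = (r.map fun x => x.1).sum := ⟨_, rfl⟩
  obtain ⟨c, hc⟩ : ∃ c, c = (l.map fun x => x.2.sum).sum := ⟨_, rfl⟩
  obtain ⟨d, hd⟩ : ∃ d, d = (r.map fun x => x.2.sum).sum := ⟨_, rfl⟩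
  have hs : siz (i, l, r) = i + (a + b) + i * (c + d) + 1 := by
    unfold siz
    rw [ha, hb, hc, hd]
  have e1 := deg_sp i l
  have e2 := deg_sp i r
  have e3 := len_sp i l
  have e4 := len_sp i r
  rw [← hc] at e1
  rw [← hd] at e2
  rw [← ha] at e3
  rw [← hb] at e4
  have e5 : i * (c + d) = i * c + i * d := by ring
  rw [hs]
  refine ⟨by omega, ?_, fun m => coeff_abs_le ((len_sub _ _).trans (by omega)) m, fun j => ?_⟩
  · refine (totalDegree_sub _ _).trans (max_le ?_ ?_) <;> omega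
  · rw [sol_sp]
    exact ⟨h1, h2⟩

/-! ### codes of points -/

lemma exists_code {i : ℕ} (z : Fin i → ℕ) {M : ℕ} (hz : ∀ t, z t ≤ M) :
    ∃ u < (M + 1) ^ i, ∀ t : Fin i, dig M u t = z t := by
  have hlt : ∀ t < i, ex z t < M + 1 := by
    intro t ht
    unfold ex
    rw [dif_pos ht]
    exact Nat.lt_succ_of_le (hz _)
  have h1 := dig_lt (B := M + 1) i (ex z) hlt
  refine ⟨_, h1, fun t => ?_⟩
  have h2 := eq_sum_dig M i _ h1
  have h3 := dig_inj (B := M + 1) i (ex z) (fun t => dig M _ t) hlt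
    (fun t _ => Nat.lt_succ_of_le (dig_le _ _ _)) h2 t t.2
  rw [← h3]
  unfold ex
  rw [dif_pos t.2]

/-- the check -/
def chk (x : Eqn × ℕ × ℕ) : Bool :=
  decide (sval x.1.2.1 x.1.1 (fun t => dig x.2.1 x.2.2 t) =
    sval x.1.2.2 x.1.1 (fun t => dig x.2.1 x.2.2 t))

lemma chk_iff (i : ℕ) (l r : Side) (M u : ℕ) :
    chk ((i, l, r), M, u) = true ↔ (fun t : Fin i => dig M u t) ∈ NS i l r := by
  unfold chk
  rw [decide_eq_true_eq, sval_eq, sval_eq]
  rfl

/-! ### computability -/

lemma prod_primrec : Primrec (fun l : List ℕ => l.prod) := by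
  have h1 : Primrec₂ (fun (_ : List ℕ) (y : ℕ × ℕ) => y.1 * y.2) :=
    Primrec.nat_mul.comp (Primrec.fst.comp Primrec.snd) (Primrec.snd.comp Primrec.snd)
  have h2 := Primrec.list_foldr (f := fun l : List ℕ => l) (g := fun _ => 1)
    (h := fun (_ : List ℕ) (y : ℕ × ℕ) => y.1 * y.2) Primrec.id (Primrec.const 1) h1
  refine h2.of_eq fun l => ?_
  induction l with
  | nil => rfl
  | cons a l ih => rw [List.prod_cons, List.foldr_cons, ih]

lemma sval_primrec : Primrec (fun x : Side × ℕ × ℕ × ℕ => sval x.1 x.2.1 (fun t => dig x.2.2.1 x.2.2.2 t)) := by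
  unfold sval dig
  refine psum (pmap (by fun_prop) ?_)
  refine pmul (by fun_prop) (prod_primrec.comp (pmap (by fun_prop) ?_))
  refine ppow (by fun_prop) ?_
  exact (Primrec.list_getD (0 : ℕ)).comp (by fun_prop) (by fun_prop)

lemma chk_primrec : Primrec chk := by
  unfold chk
  have h1 : Primrec (fun x : Eqn × ℕ × ℕ => sval x.1.2.1 x.1.1 (fun t => dig x.2.1 x.2.2 t)) :=
    sval_primrec.comp (g := fun x : Eqn × ℕ × ℕ => (x.1.2.1, x.1.1, x.2.1, x.2.2)) (by fun_prop)
  have h2 : Primrec (fun x : Eqn × ℕ × ℕ => sval x.1.2.2 x.1.1 (fun t => dig x.2.1 x.2.2 t)) :=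
    sval_primrec.comp (g := fun x : Eqn × ℕ × ℕ => (x.1.2.2, x.1.1, x.2.1, x.2.2)) (by fun_prop)
  exact pbeq h1 h2

lemma siz_primrec : Primrec siz := by
  unfold siz
  have h1 : Primrec (fun x : Eqn => (x.2.1.map fun x => x.1).sum) :=
    psum (pmap (by fun_prop) (by fun_prop))
  have h2 : Primrec (fun x : Eqn => (x.2.2.map fun x => x.1).sum) :=
    psum (pmap (by fun_prop) (by fun_prop))
  have h3 : Primrec (fun x : Eqn => (x.2.1.map fun x => x.2.sum).sum) :=
    psum (pmap (by fun_prop) (by fun_prop))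
  have h4 : Primrec (fun x : Eqn => (x.2.2.map fun x => x.2.sum).sum) :=
    psum (pmap (by fun_prop) (by fun_prop))
  fun_prop

/-- from bounds to decisions -/
theorem decide_of_bound {κ : ℕ∞} {F : ℕ → ℕ} (hF : Computable F) (h : ∀ n, 1 ≤ n → h κ n ≤ F n) :
    ∃ S : Eqn → Bool, Computable S ∧ ∀ (i : ℕ) (l r : Side),
      (NS i l r = ∅ → S (i, l, r) = false) ∧
      ((NS i l r).Nonempty → (NS i l r).encard < κ → S (i, l, r) = true) := by
  have cM : Computable (fun p : Eqn => F (siz p)) := hF.comp siz_primrec.to_comp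
  have c1 : Computable (fun x : Eqn × ℕ => chk (x.1, F (siz x.1), x.2)) :=
    chk_primrec.to_comp.comp (Computable.fst.pair ((cM.comp Computable.fst).pair Computable.snd))
  have c2 : Computable (fun p : Eqn => (F (siz p) + 1) ^ p.1) := by
    have h1 : Primrec (fun p : ℕ × ℕ => (p.1 + 1) ^ p.2) := by fun_prop
    exact h1.to_comp.comp (cM.pair Computable.fst)
  have c3 : Computable (fun p : Eqn => cnt (fun u => chk (p, F (siz p), u)) ((F (siz p) + 1) ^ p.1)) :=
    cnt_comp (f := fun (p : Eqn) u => chk (p, F (siz p), u)) c1 c2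
  refine ⟨fun p => decide (1 ≤ cnt (fun u => chk (p, F (siz p), u)) ((F (siz p) + 1) ^ p.1)), ?_,
    fun i l r => ⟨fun h1 => ?_, fun h1 h2 => ?_⟩⟩
  · have h1 : Primrec (fun n : ℕ => decide (1 ≤ n)) := by fun_prop
    exact h1.to_comp.comp c3
  · rw [decide_eq_false_iff_not, cnt_eq]
    intro h2
    obtain ⟨u, hu⟩ := Finset.card_pos.1 h2
    have h3 := (Finset.mem_filter.1 hu).2
    rw [chk_iff, h1] at h3
    exact h3
  · rw [decide_eq_true_eq, cnt_eq]
    obtain ⟨z, hz, hb⟩ := least_h κ (siz (i, l, r)) i _ (inB_sp h1 h2)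
    rw [sol_sp] at hz
    obtain ⟨u, hu, hu2⟩ := exists_code z (M := F (siz (i, l, r)))
      fun t => (hb t).trans (h _ (by unfold siz; omega))
    refine Finset.card_pos.2 ⟨u, Finset.mem_filter.2 ⟨Finset.mem_range.2 hu, ?_⟩⟩
    rw [chk_iff]
    have h3 : (fun t : Fin i => dig (F (siz (i, l, r))) u t) = z := funext hu2
    rw [h3]
    exact hz

end Pool.Agent.H201.HK
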