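import Mathlib

/-!
# An injective polynomial function on `ℕ^i`
-/

set_option autoImplicit false

namespace Pool.Agent.H201.HK

/-- `(σ + 1)^(i + 1) + ∑ z_t (σ + 1)^t`, where `σ = ∑ z_t` -/
def fv {i : ℕ} (z : Fin i → ℕ) : ℕ :=
  ((∑ t, z t) + 1) ^ (i + 1) + ∑ t, z t * ((∑ t, z t) + 1) ^ (t : ℕ)

lemma dig_lt {B : ℕ} : ∀ (k : ℕ) (a : ℕ → ℕ), (∀ t < k, a t < B) →
    ∑ t ∈ Finset.range k, a t * B ^ t < B ^ k := by
  intro k
  induction k with
  | zero => intro a _; simp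
  | succ k ih =>
    intro a ha
    rw [Finset.sum_range_succ, pow_succ]
    have h1 := ih a fun t ht => ha t (by omega)
    have h2 := ha k (by omega)
    have h3 : a k * B ^ k + B ^ k ≤ B ^ k * B := by
      have : (a k + 1) * B ^ k ≤ B * B ^ k := Nat.mul_le_mul_right _ h2
      nlinarith
    omega

lemma dig_inj {B : ℕ} : ∀ (k : ℕ) (a b : ℕ → ℕ), (∀ t < k, a t < B) → (∀ t < k, b t < B) →
    ∑ t ∈ Finset.range k, a t * B ^ t = ∑ t ∈ Finset.range k, b t * B ^ t → ∀ t < k, a t = b t := by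
  intro k
  induction k with
  | zero => intro a b _ _ _ t ht; omega
  | succ k ih =>
    intro a b ha hb h t ht
    rw [Finset.sum_range_succ, Finset.sum_range_succ] at h
    have h1 := dig_lt k a fun t ht => ha t (by omega)
    have h2 := dig_lt k b fun t ht => hb t (by omega)
    have hB : 0 < B ^ k := by omega
    have h3 : a k = b k := by
      have e1 : (∑ t ∈ Finset.range k, a t * B ^ t + a k * B ^ k) / B ^ k = a k := by
        rw [Nat.add_mul_div_right _ _ hB, Nat.div_eq_of_lt h1, Nat.zero_add]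
      have e2 : (∑ t ∈ Finset.range k, b t * B ^ t + b k * B ^ k) / B ^ k = b k := by
        rw [Nat.add_mul_div_right _ _ hB, Nat.div_eq_of_lt h2, Nat.zero_add]
      rw [← e1, ← e2, h]
    rcases Nat.lt_succ_iff_lt_or_eq.1 ht with h4 | h4
    · refine ih a b (fun t ht => ha t (by omega)) (fun t ht => hb t (by omega)) ?_ t h4
      rw [h3] at h
      omega
    · rw [h4]
      exact h3

lemma le_sum {i : ℕ} (z : Fin i → ℕ) (t : Fin i) : z t ≤ ∑ t, z t :=
  Finset.single_le_sum (f := z) (fun _ _ => Nat.zero_le _) (Finset.mem_univ t)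

/-- extension by zero -/
def ex {i : ℕ} (z : Fin i → ℕ) (t : ℕ) : ℕ := if h : t < i then z ⟨t, h⟩ else 0

lemma ex_sum {i : ℕ} (z : Fin i → ℕ) (B : ℕ) :
    ∑ t, z t * B ^ (t : ℕ) = ∑ t ∈ Finset.range i, ex z t * B ^ t := by
  rw [Finset.sum_range]
  refine Finset.sum_congr rfl fun t _ => ?_
  unfold ex
  rw [dif_pos t.2]

lemma ex_lt {i : ℕ} (z : Fin i → ℕ) (t : ℕ) : ex z t < (∑ t, z t) + 1 := by
  unfold ex
  split_ifs with h
  · exact Nat.lt_succ_of_le (le_sum z ⟨t, h⟩)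
  · omega

lemma fv_bounds {i : ℕ} (z : Fin i → ℕ) : ((∑ t, z t) + 1) ^ (i + 1) ≤ fv z ∧
    fv z < ((∑ t, z t) + 2) ^ (i + 1) := by
  have h1 := dig_lt (B := (∑ t, z t) + 1) i (ex z) fun t _ => ex_lt z t
  rw [← ex_sum] at h1
  refine ⟨Nat.le_add_right _ _, ?_⟩
  unfold fv
  have h2 : ((∑ t, z t) + 1) ^ i ≤ ((∑ t, z t) + 2) ^ i := Nat.pow_le_pow_left (by omega) _
  rw [pow_succ, pow_succ]
  have h3 := Nat.mul_le_mul_right ((∑ t, z t) + 2) h2
  have h4 : ((∑ t, z t) + 1) ^ i * ((∑ t, z t) + 2) =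
      ((∑ t, z t) + 1) ^ i * ((∑ t, z t) + 1) + ((∑ t, z t) + 1) ^ i := by ring
  omega

lemma fv_inj {i : ℕ} : Function.Injective (fv (i := i)) := by
  intro z z' h
  have b1 := fv_bounds z
  have b2 := fv_bounds z'
  have hs : (∑ t, z t) = ∑ t, z' t := by
    rcases Nat.lt_trichotomy (∑ t, z t) (∑ t, z' t) with h1 | h1 | h1
    · have : ((∑ t, z t) + 2) ^ (i + 1) ≤ ((∑ t, z' t) + 1) ^ (i + 1) :=
        Nat.pow_le_pow_left (by omega) _
      omega
    · exact h1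
    · have : ((∑ t, z' t) + 2) ^ (i + 1) ≤ ((∑ t, z t) + 1) ^ (i + 1) :=
        Nat.pow_le_pow_left (by omega) _
      omega
  have h3 : ∑ t, z t * ((∑ t, z t) + 1) ^ (t : ℕ) = ∑ t, z' t * ((∑ t, z t) + 1) ^ (t : ℕ) := by
    unfold fv at h
    rw [← hs] at h
    omega
  rw [ex_sum, ex_sum] at h3
  have h4 := dig_inj i (ex z) (ex z') (fun t _ => ex_lt z t)
    (fun t _ => by rw [hs]; exact ex_lt z' t) h3
  funext t
  have h5 := h4 t t.2
  unfold ex at h5
  rw [dif_pos t.2, dif_pos t.2] at h5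
  exact h5

end Pool.Agent.H201.HK
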