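import Pool.Agent.H201.HK.Uniq
import Pool.Agent.H201.AD.Stage

/-!
# The functions `h_κ` for finite `κ`, and boundedly many guesses
-/

set_option autoImplicit false

namespace Pool.Agent.H201.HK

open MvPolynomial

section

variable {m i : ℕ}

lemma hM_aux {n : ℕ} (hn : 1 ≤ n) (t : Fin m) (v : Option (Fin i)) :
    len (v.elim (C (n : ℤ)) fun s => (X (Sum.inl (t, s)) : MvPolynomial (Unk m i) ℤ)) ≤ n := by
  cases v with
  | none => exact (len_C (n : ℤ)).le
  | some s => exact (len_X _).le.trans hn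

lemma hE_aux (n : ℕ) (t : Fin m) (v : Option (Fin i)) :
    (v.elim (C (n : ℤ)) fun s => (X (Sum.inl (t, s)) : MvPolynomial (Unk m i) ℤ)).totalDegree
      ≤ 1 := by
  cases v with
  | none => exact (totalDegree_C (n : ℤ)).le.trans (Nat.zero_le _)
  | some s => exact (totalDegree_X _).le

lemma deg_pA {D : Poly i} {n : ℕ} (hd : D.totalDegree ≤ n) (t : Fin m) :
    (pA D n t).totalDegree ≤ n := by
  have := deg_aeval _ D (hE_aux n t) hd
  unfold pA
  omega

lemma len_pA {D : Poly i} {n : ℕ} (hn : 1 ≤ n) (hi : i ≤ n) (hd : D.totalDegree ≤ n)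
    (hc : ∀ m, |D.coeff m| ≤ n) (t : Fin m) : len (pA D n t) ≤ (n + 1) ^ (2 * n + 2) := by
  classical
  have := len_aeval _ D (hM_aux hn t) hn hd
  unfold pA
  exact this.trans (len_bound hn hi hd hc)

lemma deg_pG (t : ℕ) : (pG m i t).totalDegree ≤ i + 1 := by
  unfold pG
  split_ifs with h
  · have := deg_aeval (fun s : Fin i => (X (Sum.inl (⟨t, h⟩, s)) : MvPolynomial (Unk m i) ℤ)) (fp i)
      (E := 1) (fun v => (totalDegree_X _).le) (deg_fp i)
    omega
  · rw [totalDegree_zero]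
    exact Nat.zero_le _

lemma len_pG (t : ℕ) : len (pG m i t) ≤ 2 * (i + 1) ^ (i + 1) := by
  classical
  unfold pG
  split_ifs with h
  · have := len_aeval (fun s : Fin i => (X (Sum.inl (⟨t, h⟩, s)) : MvPolynomial (Unk m i) ℤ)) (fp i)
      (M := 1) (fun v => (len_X _).le) le_rfl (deg_fp i)
    rw [Nat.one_pow, Nat.mul_one] at this
    exact this.trans (len_fp i)
  · rw [len_zero]
    exact Nat.zero_le _

lemma deg_pP (t : ℕ) : (pP m i t).totalDegree ≤ i + 1 := by
  cases t with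
  | zero => rw [pP, totalDegree_zero]; exact Nat.zero_le _
  | succ t =>
    rw [pP]
    refine (totalDegree_add _ _).trans (max_le (deg_pG t) ?_)
    rw [totalDegree_one]
    exact Nat.zero_le _

lemma len_pP (t : ℕ) : len (pP m i t) ≤ 2 * (i + 1) ^ (i + 1) + 1 := by
  classical
  cases t with
  | zero => rw [pP, len_zero]; exact Nat.zero_le _
  | succ t =>
    rw [pP]
    refine (len_add _ _).trans ?_
    rw [len_one]
    exact Nat.add_le_add_right (len_pG t) 1

lemma deg_pE (t : Fin m) : (pE m i t).totalDegree ≤ i + 1 := by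
  unfold pE
  refine (totalDegree_sub _ _).trans (max_le ((totalDegree_sub _ _).trans
    (max_le (deg_pG _) (deg_pP _))) ?_)
  rw [totalDegree_X]
  omega

lemma len_pE (t : Fin m) : len (pE m i t) ≤ 4 * (i + 1) ^ (i + 1) + 2 := by
  classical
  unfold pE
  have h1 := len_sub (pG m i t - pP m i t) (X (Sum.inr t))
  have h2 := len_sub (pG m i t) (pP m i t)
  have h3 := len_pG (m := m) (i := i) t
  have h4 := len_pP (m := m) (i := i) t
  have h5 : len (X (Sum.inr t) : MvPolynomial (Unk m i) ℤ) = 1 := len_X _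
  omega

lemma deg_uq {D : Poly i} {n : ℕ} (hi : i ≤ n) (hd : D.totalDegree ≤ n) :
    (uq D n m).totalDegree ≤ 2 * (n + 1) := by
  unfold uq
  refine (totalDegree_rename_le _ _).trans ?_
  unfold pB
  refine (totalDegree_finsetSum _ _).trans (Finset.sup_le fun t _ => ?_)
  refine (totalDegree_add _ _).trans (max_le ?_ ?_)
  · refine (totalDegree_pow _ _).trans (Nat.mul_le_mul_left 2 ?_)
    exact (deg_pA hd t).trans (Nat.le_succ n)
  · refine (totalDegree_pow _ _).trans (Nat.mul_le_mul_left 2 ?_)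
    exact (deg_pE t).trans (by omega)

lemma len_uq {D : Poly i} {n : ℕ} (hn : 1 ≤ n) (hi : i ≤ n) (hd : D.totalDegree ≤ n)
    (hc : ∀ m, |D.coeff m| ≤ n) : len (uq D n m) ≤ 3 * m * (n + 1) ^ (4 * n + 4) := by
  classical
  have h1 : len (uq D n m) ≤ len (pB D n m) := by
    have := len_aeval (X ∘ fun v => some (num m i v) :
      Unk m i → MvPolynomial (Option (Fin (m * i + m))) ℤ) (pB D n m) (M := 1)
      (fun v => (len_X _).le) le_rfl (le_refl _)
    rw [Nat.one_pow, Nat.mul_one] at this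
    have h0 : (rename (fun v => some (num m i v)) :
        MvPolynomial (Unk m i) ℤ →ₐ[ℤ] MvPolynomial (Option (Fin (m * i + m))) ℤ) =
        aeval (X ∘ fun v => some (num m i v)) := by
      apply MvPolynomial.algHom_ext
      intro v
      rw [rename_X, aeval_X]
      rfl
    unfold uq
    rw [h0]
    exact this
  refine h1.trans ?_
  unfold pB
  refine (len_sum _ _).trans ?_
  have h2 : ∀ t : Fin m, len (pA D n t ^ 2 + pE m i t ^ 2) ≤ 3 * (n + 1) ^ (4 * n + 4) := by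
    intro t
    obtain ⟨x, hx⟩ : ∃ x, x = (n + 1) ^ (n + 1) := ⟨_, rfl⟩
    have e1 : (n + 1) ^ (4 * n + 4) = x ^ 4 := by rw [hx, ← pow_mul]; congr 1; ring
    have e2 : (n + 1) ^ (2 * n + 2) = x ^ 2 := by rw [hx, ← pow_mul]; congr 1; ring
    have e3 : 4 ≤ x := by
      rw [hx]
      calc 4 = 2 ^ 2 := by norm_num
        _ ≤ (n + 1) ^ 2 := Nat.pow_le_pow_left (by omega) _
        _ ≤ (n + 1) ^ (n + 1) := Nat.pow_le_pow_right (by omega) (by omega)
    have e4 : (i + 1) ^ (i + 1) ≤ x := by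
      rw [hx]
      exact (Nat.pow_le_pow_left (by omega) _).trans (Nat.pow_le_pow_right (by omega) (by omega))
    have a1 : len (pA D n t ^ 2) ≤ (x ^ 2) ^ 2 := by
      refine (len_pow _ _).trans (Nat.pow_le_pow_left ?_ 2)
      rw [← e2]
      exact len_pA hn hi hd hc t
    have a2 : len (pE m i t ^ 2) ≤ (4 * x + 2) ^ 2 := by
      refine (len_pow _ _).trans (Nat.pow_le_pow_left ?_ 2)
      have := len_pE (m := m) (i := i) t
      omega
    have a3 : (4 * x + 2) ^ 2 ≤ 2 * x ^ 4 := by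
      have b1 : 4 * 4 ≤ x * x := Nat.mul_le_mul e3 e3
      have b2 : 16 * (x * x) ≤ (x * x) * (x * x) := Nat.mul_le_mul_right _ b1
      have b3 : 4 * x ≤ x * x := Nat.mul_le_mul_right _ e3
      have b4 : (4 * x + 2) ^ 2 = 16 * (x * x) + 16 * x + 4 := by ring
      have b5 : x ^ 4 = (x * x) * (x * x) := by ring
      omega
    have a4 := len_add (pA D n t ^ 2) (pE m i t ^ 2)
    have a5 : (x ^ 2) ^ 2 = x ^ 4 := by ring
    rw [e1]
    omega
  refine (Finset.sum_le_card_nsmul _ _ _ fun t _ => h2 t).trans (le_of_eq ?_)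
  rw [Finset.card_univ, Fintype.card_fin, smul_eq_mul]
  ring

lemma inB_uq {κ : ℕ∞} {n n' : ℕ} (hn : 1 ≤ n) (hm1 : 1 ≤ m) {D : Poly i} (hD : InB κ n D)
    (hm : (Sol D n).encard = (m : ℕ∞)) (hn' : 3 * m * (n + 1) ^ (4 * n + 4) ≤ n') :
    InB 2 n' (uq D n m) := by
  obtain ⟨h1, h2, h3, _⟩ := hD
  obtain ⟨y, hy⟩ : ∃ y, y = (n + 1) ^ (4 * n + 4) := ⟨_, rfl⟩
  have h5 : n + 1 ≤ y := by rw [hy]; exact self_le_pow (by omega)
  have h6 : m * (n + 1) ≤ m * y := Nat.mul_le_mul_left _ h5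
  have h7 : 1 * (n + 1) ≤ m * (n + 1) := Nat.mul_le_mul_right _ hm1
  have h8 : 3 * m * y ≤ n' := by rw [hy]; exact hn'
  have h9 : 3 * m * y = 3 * (m * y) := by ring
  refine ⟨?_, ?_, fun a => coeff_abs_le ((len_uq hn h1 h2 h3).trans hn') a, fun j => ?_⟩
  · have h10 : m * i + m ≤ m * (n + 1) := by
      have := Nat.mul_le_mul_left m h1
      nlinarith
    omega
  · have := deg_uq (m := m) h1 h2
    omega
  · obtain ⟨z₀, hz, _⟩ := uq_one hm j
    rw [hz]
    exact ⟨⟨z₀, rfl⟩, by rw [Set.encard_singleton]; norm_num⟩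

end

/-- **All solutions are bounded by the bound for equations with exactly one solution.** -/
theorem hmax_le_h2 {κ : ℕ∞} {n c : ℕ} (hn : 1 ≤ n)
    (hc : ∀ (i : ℕ) (D : Poly i), InB κ n D → (Sol D n).encard ≤ c) :
    hmax κ n ≤ h 2 (3 * c * (n + 1) ^ (4 * n + 4)) := by
  refine hmax_le fun i D hD z hz t => ?_
  have h1 := hc i D hD
  have h2 : (Sol D n).encard ≠ ⊤ := fun h => by
    rw [h] at h1
    exact absurd h1 (by simp)
  obtain ⟨m, hm⟩ := ENat.ne_top_iff_exists.1 h2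
  have hmc : m ≤ c := by
    rw [← hm] at h1
    exact_mod_cast h1
  have hm1 : 1 ≤ m := by
    by_contra hcon
    have h3 : m = 0 := by omega
    rw [h3, Nat.cast_zero, eq_comm, Set.encard_eq_zero] at hm
    rw [hm] at hz
    exact hz
  have h4 : 3 * m * (n + 1) ^ (4 * n + 4) ≤ 3 * c * (n + 1) ^ (4 * n + 4) :=
    Nat.mul_le_mul_right _ (Nat.mul_le_mul_left _ hmc)
  obtain ⟨z', hz', hb⟩ := least_h 2 _ _ _ (inB_uq hn hm1 hD hm.symm h4)
  obtain ⟨z₀, hz₀, hall⟩ := uq_one (D := D) (n := n) hm.symm (3 * c * (n + 1) ^ (4 * n + 4))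
  rw [hz₀] at hz'
  obtain ⟨t', ht'⟩ := hall z hz t
  rw [ht', ← Set.mem_singleton_iff.1 hz']
  exact hb t'

/-- the number of the solutions -/
lemma card_le {κ : ℕ∞} {n b : ℕ} (hb : hmax κ n ≤ b) {i : ℕ} {D : Poly i} (hD : InB κ n D) :
    (Sol D n).encard ≤ ((b + 1) ^ n : ℕ) := by
  classical
  have h1 : Sol D n ⊆ (Fintype.piFinset fun _ : Fin i => Finset.range (b + 1) : Finset _) := by
    intro z hz
    rw [Finset.mem_coe, Fintype.mem_piFinset]
    intro t
    rw [Finset.mem_range, Nat.lt_succ_iff]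
    exact (largest_hmax κ n i D hD z hz t).trans hb
  refine (Set.encard_le_encard h1).trans ?_
  rw [Set.encard_coe_eq_coe_finsetCard, Fintype.card_piFinset, Finset.prod_const,
    Finset.card_range, Finset.card_univ, Fintype.card_fin]
  exact_mod_cast Nat.pow_le_pow_right (by omega) hD.1

/-- **Boundedly many guesses.** -/
theorem guess {κ : ℕ∞} (k : ℕ) {A : ℕ × ℕ →. ℕ} (hA : Partrec A) {r : ℕ → Bool}
    (hr : Computable r) (hinf : ∀ m, ∃ n, m ≤ n ∧ r n = true)
    (hg : ∀ n, r n = true → ∃ i < k, ∃ v ∈ A (i, n), h κ n ≤ v) :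
    ∃ F : ℕ → ℕ, Computable F ∧ ∀ n, 1 ≤ n → h κ n ≤ F n := by
  classical
  let p : ℕ → ℕ → Bool := fun N u => decide ((N + 1) ^ (2 * N + 2) ≤ u) && r u
  have hp : Computable₂ p := by
    have h1 : Primrec (fun z : ℕ × ℕ => decide ((z.1 + 1) ^ (2 * z.1 + 2) ≤ z.2)) := by fun_prop
    exact Primrec.and.to_comp.comp h1.to_comp (hr.comp Computable.snd)
  obtain ⟨s, hs, hs'⟩ := Pool.Agent.H201.AD.Bnd.find_comp hp fun N => by
    obtain ⟨n, h1, h2⟩ := hinf ((N + 1) ^ (2 * N + 2))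
    exact ⟨n, by simp [p, h1, h2]⟩
  have hs2 : ∀ N, (N + 1) ^ (2 * N + 2) ≤ s N ∧ r (s N) = true := by
    intro N
    have h1 := hs' N
    simpa [p] using h1
  obtain ⟨R, hR⟩ : ∃ R : ℕ → ℕ → Prop, ∀ N v, R N v ↔ ∀ n, 1 ≤ n → n ≤ N → h κ n ≤ v :=
    ⟨_, fun N v => Iff.rfl⟩
  obtain ⟨F, hF, hF2⟩ := Pool.Agent.H201.AD.Bnd.stage_bound (Y := ℕ) k hA
    (c := fun z => s z.1) (hs.comp Computable.fst) (num := fun _ => 1) (Computable.const 1)
    (R := R) (fun N v w hvw h1 => (hR N w).2 fun n h2 h3 => ((hR N v).1 h1 n h2 h3).trans hvw)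
    (fun M N v hMN h1 => (hR M v).2 fun n h2 h3 => (hR N v).1 h1 n h2 (h3.trans hMN))
    (fun N => by
      obtain ⟨i, hi, v, hv, hb⟩ := hg (s N) (hs2 N).2
      refine lt_of_lt_of_le (by norm_num) (Nat.mul_le_mul_left 2 (Finset.card_pos.2
        ⟨0, Finset.mem_filter.2 ⟨Finset.mem_range.2 Nat.one_pos, i, hi, v, hv, ?_⟩⟩))
      rw [hR]
      intro n h2 h3
      refine (h_le_of_le κ h2 (le_trans ?_ (hs2 N).1)).trans hb
      exact (Nat.pow_le_pow_left (by omega) _).trans (Nat.pow_le_pow_right (by omega) (by omega)))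
  exact ⟨F, hF, fun n hn => (hR n _).1 (hF2 n) n hn le_rfl⟩

end Pool.Agent.H201.HK
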