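import Pool.Agent.H201.HK.Count

/-!
# Partial counting from decisions
-/

set_option autoImplicit false

namespace Pool.Agent.H201.HK

open Pool.Agent.Q324.SC

/-- product of two sides in `i` unknowns -/
def smul (i : ℕ) (l r : Side) : Side := l.flatMap fun x => r.map fun y =>
  (x.1 * y.1, (List.range i).map fun t => x.2.getD t 0 + y.2.getD t 0)

lemma getD_map_range {i : ℕ} (f : ℕ → ℕ) (t : Fin i) : ((List.range i).map f).getD t 0 = f t := by
  rw [List.getD_eq_getElem _ _ (by simp)]
  simp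

lemma val_append (l l' : Side) {i : ℕ} (z : Fin i → ℕ) : val (l ++ l') z = val l z + val l' z := by
  unfold val
  rw [List.map_append, List.sum_append]

lemma val_smul (i : ℕ) (l r : Side) (z : Fin i → ℕ) : val (smul i l r) z = val l z * val r z := by
  unfold smul
  induction l with
  | nil => simp [val]
  | cons x l ih =>
    rw [List.flatMap_cons, val_append, ih]
    have h1 : val (r.map fun y => (x.1 * y.1, (List.range i).map fun t =>
        x.2.getD t 0 + y.2.getD t 0)) z = (x.1 * ∏ t, z t ^ x.2.getD t 0) * val r z := by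
      unfold val
      rw [List.map_map, ← List.sum_map_mul_left]
      congr 1
      refine List.map_congr_left fun y _ => ?_
      simp only [Function.comp]
      have h2 : ∀ t : Fin i, z t ^ ((List.range i).map fun t =>
          x.2.getD t 0 + y.2.getD t 0).getD t 0 = z t ^ x.2.getD t 0 * z t ^ y.2.getD t 0 := by
        intro t
        rw [getD_map_range (fun t => x.2.getD t 0 + y.2.getD t 0), pow_add]
      rw [Finset.prod_congr rfl fun t _ => h2 t, Finset.prod_mul_distrib]
      ring
    rw [h1]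
    simp only [val, List.map_cons, List.sum_cons]
    ring

/-- forget the exponents of other unknowns -/
def trc (i : ℕ) (l : Side) : Side :=
  l.map fun x => (x.1, (List.range i).map fun t => x.2.getD t 0)

lemma val_trc {i : ℕ} (l : Side) (z : Fin (i + 1) → ℕ) :
    val (trc i l) z = val l (fun t : Fin i => z t.castSucc) := by
  unfold trc val
  rw [List.map_map]
  congr 1
  refine List.map_congr_left fun x _ => ?_
  simp only [Function.comp]
  congr 1
  rw [Fin.prod_univ_castSucc]
  have h1 : ((List.range i).map fun t => x.2.getD t 0).getD (Fin.last i : ℕ) 0 = 0 := by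
    rw [List.getD_eq_default _ _ (by simp)]
  rw [h1, pow_zero, mul_one]
  refine Finset.prod_congr rfl fun t _ => ?_
  have h2 : ((t.castSucc : Fin (i + 1)) : ℕ) = (t : ℕ) := rfl
  rw [h2, getD_map_range (fun t => x.2.getD t 0)]

/-- exponents of a single unknown -/
def unt (k t : ℕ) : List ℕ := (List.range k).map fun s => 1 - ((s - t) + (t - s))

lemma val_unt {k : ℕ} (z : Fin k → ℕ) (t : Fin k) : ∏ s, z s ^ (unt k t).getD s 0 = z t := by
  unfold unt
  rw [Finset.prod_eq_single t]
  · rw [getD_map_range]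
    simp
  · intro s _ hs
    rw [getD_map_range]
    have h1 : (s : ℕ) ≠ t := fun h => hs (Fin.ext h)
    have h2 : 1 - (((s : ℕ) - t) + (t - s)) = 0 := by omega
    rw [h2, pow_zero]
  · intro h
    exact absurd (Finset.mem_univ t) h

/-- the sum of the old unknowns -/
def sg (i : ℕ) : Side := (List.range i).map fun t => (1, unt (i + 1) t)

lemma val_sg {i : ℕ} (z : Fin (i + 1) → ℕ) : val (sg i) z = ∑ t : Fin i, z t.castSucc := by
  unfold val sg
  rw [List.map_map, sum_range_map]
  rw [Finset.sum_range]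
  refine Finset.sum_congr rfl fun t _ => ?_
  simp only [Function.comp, one_mul]
  exact val_unt z t.castSucc

/-- `b` plus the new unknown -/
def bw (i b : ℕ) : Side := [(b, []), (1, unt (i + 1) i)]

lemma val_bw {i : ℕ} (b : ℕ) (z : Fin (i + 1) → ℕ) : val (bw i b) z = b + z (Fin.last i) := by
  unfold val bw
  have h1 := val_unt z (Fin.last i)
  rw [Fin.val_last] at h1
  simp only [List.map_cons, List.map_nil, List.sum_cons, List.sum_nil, one_mul, h1]
  simp

lemma sq_iff (L R G W : ℕ) : L * L + R * R + G * G + W * W = L * R + L * R + G * W + G * W ↔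
    L = R ∧ G = W := by
  constructor
  · intro h
    have h1 := congrArg (Nat.cast : ℕ → ℤ) h
    push_cast at h1
    have h2 : ((L : ℤ) - R) ^ 2 + ((G : ℤ) - W) ^ 2 = 0 := by linear_combination h1
    have h3 := (add_eq_zero_iff_of_nonneg (sq_nonneg _) (sq_nonneg _)).1 h2
    have h4 := pow_eq_zero_iff two_ne_zero |>.1 h3.1
    have h5 := pow_eq_zero_iff two_ne_zero |>.1 h3.2
    omega
  · rintro ⟨rfl, rfl⟩
    ring

/-- the equation for the solutions with sum at least `b`: left hand side -/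
def PL (i b : ℕ) (l r : Side) : Side := ((smul (i + 1) (trc i l) (trc i l) ++
  smul (i + 1) (trc i r) (trc i r)) ++ smul (i + 1) (sg i) (sg i)) ++ smul (i + 1) (bw i b) (bw i b)

/-- right hand side -/
def PR (i b : ℕ) (l r : Side) : Side := ((smul (i + 1) (trc i l) (trc i r) ++
  smul (i + 1) (trc i l) (trc i r)) ++ smul (i + 1) (sg i) (bw i b)) ++ smul (i + 1) (sg i) (bw i b)

lemma mem_P {i b : ℕ} {l r : Side} (z : Fin (i + 1) → ℕ) : z ∈ NS (i + 1) (PL i b l r) (PR i b l r) ↔
    (fun t : Fin i => z t.castSucc) ∈ NS i l r ∧ ∑ t : Fin i, z t.castSucc = b + z (Fin.last i) := by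
  unfold NS PL PR
  rw [Set.mem_ofPred_eq, Set.mem_ofPred_eq]
  simp only [val_append, val_smul, val_trc, val_sg, val_bw]
  exact sq_iff _ _ _ _

lemma fin_P {i b : ℕ} {l r : Side} (h : (NS i l r).Finite) :
    (NS (i + 1) (PL i b l r) (PR i b l r)).Finite := by
  refine (h.image fun z : Fin i → ℕ =>
    (Fin.snoc (α := fun _ => ℕ) z (∑ t, z t - b) : Fin (i + 1) → ℕ)).subset fun z hz => ?_
  obtain ⟨h1, h2⟩ := (mem_P z).1 hz
  refine ⟨_, h1, ?_⟩
  have h3 : ∑ t : Fin i, z t.castSucc - b = z (Fin.last i) := by omega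
  simp only
  rw [h3]
  exact Fin.snoc_init_self z

/-! ### computability -/

lemma unt_primrec : Primrec (fun x : ℕ × ℕ => unt x.1 x.2) := by
  unfold unt
  exact pmap (by fun_prop) (by fun_prop)

lemma getD_primrec {α : Type*} [Primcodable α] {f : α → List ℕ} {g : α → ℕ} (hf : Primrec f)
    (hg : Primrec g) : Primrec (fun a => (f a).getD (g a) 0) :=
  (Primrec.list_getD (0 : ℕ)).comp hf hg

lemma smul_primrec : Primrec (fun x : ℕ × Side × Side => smul x.1 x.2.1 x.2.2) := by
  unfold smul
  refine pflatMap (by fun_prop) (pmap (by fun_prop) (Primrec.pair (by fun_prop)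
    (pmap (by fun_prop) (padd (getD_primrec (by fun_prop) (by fun_prop))
      (getD_primrec (by fun_prop) (by fun_prop))))))

lemma trc_primrec : Primrec (fun x : ℕ × Side => trc x.1 x.2) := by
  unfold trc
  exact pmap (by fun_prop) (Primrec.pair (by fun_prop) (pmap (by fun_prop)
    (getD_primrec (by fun_prop) (by fun_prop))))

attribute [local irreducible] unt in
lemma sg_primrec : Primrec sg := by
  unfold sg
  refine pmap (by fun_prop) (Primrec.pair (by fun_prop) ?_)
  exact unt_primrec.comp (g := fun x : ℕ × ℕ => (x.1 + 1, x.2)) (by fun_prop)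

attribute [local irreducible] unt in
lemma bw_primrec : Primrec (fun x : ℕ × ℕ => bw x.1 x.2) := by
  unfold bw
  have h1 : Primrec (fun x : ℕ × ℕ => unt (x.1 + 1) x.1) :=
    unt_primrec.comp (g := fun x : ℕ × ℕ => (x.1 + 1, x.1)) (by fun_prop)
  have h2 : Primrec (fun x : ℕ × ℕ => ((x.2, []) : ℕ × List ℕ)) := by fun_prop
  have h3 : Primrec (fun x : ℕ × ℕ => ((1, unt (x.1 + 1) x.1) : ℕ × List ℕ)) :=
    (Primrec.const 1).pair h1
  exact pcons h2 (pcons h3 (Primrec.const []))

attribute [local irreducible] smul trc sg bw in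
lemma P_primrec : Primrec (fun x : Eqn × ℕ =>
    ((x.1.1 + 1, PL x.1.1 x.2 x.1.2.1 x.1.2.2, PR x.1.1 x.2 x.1.2.1 x.1.2.2) : Eqn)) := by
  have k0 : Primrec (fun x : Eqn × ℕ => x.1.1 + 1) := by fun_prop
  have kl : Primrec (fun x : Eqn × ℕ => trc x.1.1 x.1.2.1) :=
    trc_primrec.comp (g := fun x : Eqn × ℕ => (x.1.1, x.1.2.1)) (by fun_prop)
  have kr : Primrec (fun x : Eqn × ℕ => trc x.1.1 x.1.2.2) :=
    trc_primrec.comp (g := fun x : Eqn × ℕ => (x.1.1, x.1.2.2)) (by fun_prop)
  have kg : Primrec (fun x : Eqn × ℕ => sg x.1.1) :=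
    sg_primrec.comp (g := fun x : Eqn × ℕ => x.1.1) (by fun_prop)
  have kb : Primrec (fun x : Eqn × ℕ => bw x.1.1 x.2) :=
    bw_primrec.comp (g := fun x : Eqn × ℕ => (x.1.1, x.2)) (by fun_prop)
  have km : ∀ {f g : Eqn × ℕ → Side}, Primrec f → Primrec g →
      Primrec (fun x : Eqn × ℕ => smul (x.1.1 + 1) (f x) (g x)) := fun {f g} hf hg =>
    smul_primrec.comp (g := fun x : Eqn × ℕ => (x.1.1 + 1, f x, g x)) (k0.pair (hf.pair hg))
  have h1 : Primrec (fun x : Eqn × ℕ => PL x.1.1 x.2 x.1.2.1 x.1.2.2) :=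
    pappend (pappend (pappend (km kl kl) (km kr kr)) (km kg kg)) (km kb kb)
  have h2 : Primrec (fun x : Eqn × ℕ => PR x.1.1 x.2 x.1.2.1 x.1.2.2) :=
    pappend (pappend (pappend (km kl kr) (km kl kr)) (km kg kb)) (km kg kb)
  exact k0.pair (h1.pair h2)

attribute [local irreducible] PL PR cM in
/-- **Partial counting from decisions.** -/
theorem partial_of_decide {S : Eqn → Bool} (hS : Computable S)
    (hS2 : ∀ (i : ℕ) (l r : Side), (NS i l r = ∅ → S (i, l, r) = false) ∧
      ((NS i l r).Nonempty → (NS i l r).encard < ⊤ → S (i, l, r) = true)) :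
    ∃ N : Eqn →. ℕ, Partrec N ∧ ∀ (i : ℕ) (l r : Side), (NS i l r).Finite →
      ∃ v ∈ N (i, l, r), (NS i l r).encard = (v : ℕ) := by
  let p : Eqn → ℕ → Bool := fun x b =>
    !S (x.1 + 1, PL x.1 b x.2.1 x.2.2, PR x.1 b x.2.1 x.2.2)
  have hp : Computable₂ p := by
    have h1 : Computable (fun x : Eqn × ℕ =>
        S (x.1.1 + 1, PL x.1.1 x.2 x.1.2.1 x.1.2.2, PR x.1.1 x.2 x.1.2.1 x.1.2.2)) :=
      hS.comp P_primrec.to_comp
    exact Primrec.not.to_comp.comp h1
  let q : Eqn →. ℕ := fun x => Nat.rfind fun b => Part.some (p x b)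
  have hq : Partrec q := Partrec.rfind hp.partrec₂
  refine ⟨fun x => (q x).map (cM x), hq.map cM_comp, fun i l r hfin => ?_⟩
  have hd : (q (i, l, r)).Dom := by
    obtain ⟨M, hM⟩ := exists_bd hfin
    have h1 : NS (i + 1) (PL i (i * M + 1) l r) (PR i (i * M + 1) l r) = ∅ := by
      rw [Set.eq_empty_iff_forall_notMem]
      intro z hz
      obtain ⟨h2, h3⟩ := (mem_P z).1 hz
      have h4 : ∑ t : Fin i, z t.castSucc ≤ i * M := by
        refine (Finset.sum_le_card_nsmul _ _ M fun t _ => hM _ h2 t).trans ?_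
        simp
      omega
    have h2 : p (i, l, r) (i * M + 1) = true := by
      simp only [p]
      rw [(hS2 _ _ _).1 h1]
      rfl
    exact Nat.rfind_dom.mpr ⟨i * M + 1, by simp [h2], fun _ => trivial⟩
  obtain ⟨b, hb⟩ := Part.dom_iff_mem.1 hd
  refine ⟨cM (i, l, r) b, Part.mem_map _ hb, ?_⟩
  have h1 : p (i, l, r) b = true := by
    have := Nat.rfind_spec hb
    simpa using this
  have h2 : NS (i + 1) (PL i b l r) (PR i b l r) = ∅ := by
    by_contra h3
    have h4 := (hS2 _ _ _).2 (Set.nonempty_iff_ne_empty.2 h3)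
      (Set.encard_lt_top_iff.2 (fin_P hfin))
    simp only [p] at h1
    rw [h4] at h1
    exact Bool.noConfusion h1
  rw [← cM_eq]
  congr 1
  ext z
  rw [Set.mem_ofPred_eq]
  refine ⟨fun hz => ⟨hz, fun t => ?_⟩, fun hz => hz.1⟩
  by_contra hcon
  have h3 : z t ≤ ∑ t, z t :=
    Finset.single_le_sum (f := z) (fun _ _ => Nat.zero_le _) (Finset.mem_univ t)
  have h4 : (Fin.snoc (α := fun _ => ℕ) z (∑ t, z t - b) : Fin (i + 1) → ℕ) ∈
      NS (i + 1) (PL i b l r) (PR i b l r) := by
    rw [mem_P]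
    simp only [Fin.snoc_castSucc, Fin.snoc_last]
    exact ⟨hz, by omega⟩
  rw [h2] at h4
  exact h4

end Pool.Agent.H201.HK
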