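import Mathlib

/-!
# The sum of the absolute values of the coefficients of a polynomial
-/

set_option autoImplicit false

namespace Pool.Agent.H201.HK

open MvPolynomial

variable {σ τ : Type*}

/-- the sum of the absolute values of the coefficients -/
noncomputable def len (P : MvPolynomial σ ℤ) : ℕ := ∑ m ∈ P.support, (P.coeff m).natAbs

lemma len_of_subset {P : MvPolynomial σ ℤ} {S : Finset (σ →₀ ℕ)} (h : P.support ⊆ S) :
    len P = ∑ m ∈ S, (P.coeff m).natAbs := by
  unfold len
  refine Finset.sum_subset h fun m _ hm => ?_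
  rw [notMem_support_iff.1 hm, Int.natAbs_zero]

lemma coeff_le_len (P : MvPolynomial σ ℤ) (m : σ →₀ ℕ) : (P.coeff m).natAbs ≤ len P := by
  by_cases h : m ∈ P.support
  · exact Finset.single_le_sum (f := fun m => (P.coeff m).natAbs) (fun _ _ => Nat.zero_le _) h
  · rw [notMem_support_iff.1 h, Int.natAbs_zero]
    exact Nat.zero_le _

lemma len_add [DecidableEq σ] (P Q : MvPolynomial σ ℤ) : len (P + Q) ≤ len P + len Q := by
  rw [len_of_subset (P := P + Q) (support_add), len_of_subset (P := P) (S := P.support ∪ Q.support)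
    Finset.subset_union_left, len_of_subset (P := Q) (S := P.support ∪ Q.support)
    Finset.subset_union_right, ← Finset.sum_add_distrib]
  refine Finset.sum_le_sum fun m _ => ?_
  rw [coeff_add]
  exact Int.natAbs_add_le _ _

lemma len_zero : len (0 : MvPolynomial σ ℤ) = 0 := by simp [len]

lemma len_neg (P : MvPolynomial σ ℤ) : len (-P) = len P := by
  unfold len
  rw [support_neg]
  refine Finset.sum_congr rfl fun m _ => ?_
  rw [coeff_neg, Int.natAbs_neg]

lemma len_sub [DecidableEq σ] (P Q : MvPolynomial σ ℤ) : len (P - Q) ≤ len P + len Q := by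
  rw [sub_eq_add_neg]
  exact (len_add _ _).trans (by rw [len_neg])

lemma len_sum [DecidableEq σ] {ι : Type*} (s : Finset ι) (f : ι → MvPolynomial σ ℤ) :
    len (∑ i ∈ s, f i) ≤ ∑ i ∈ s, len (f i) := by
  classical
  induction s using Finset.induction_on with
  | empty => simp [len_zero]
  | insert a s ha ih =>
    rw [Finset.sum_insert ha, Finset.sum_insert ha]
    exact (len_add _ _).trans (Nat.add_le_add_left ih _)

lemma len_monomial (m : σ →₀ ℕ) (c : ℤ) : len (monomial m c) = c.natAbs := by
  classical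
  rw [len_of_subset (S := {m}) (support_monomial_subset), Finset.sum_singleton, coeff_monomial,
    if_pos rfl]

lemma len_mul [DecidableEq σ] (P Q : MvPolynomial σ ℤ) : len (P * Q) ≤ len P * len Q := by
  have h1 : P * Q = ∑ a ∈ P.support, ∑ b ∈ Q.support,
      monomial (a + b) (P.coeff a * Q.coeff b) := by
    conv_lhs => rw [P.as_sum, Q.as_sum]
    rw [Finset.sum_mul_sum]
    refine Finset.sum_congr rfl fun a _ => Finset.sum_congr rfl fun b _ => ?_
    rw [monomial_mul]
  rw [h1]
  refine (len_sum _ _).trans ?_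
  unfold len
  rw [Finset.sum_mul_sum]
  refine Finset.sum_le_sum fun a _ => (len_sum _ _).trans (Finset.sum_le_sum fun b _ => ?_)
  rw [len_monomial, Int.natAbs_mul]

lemma len_C (c : ℤ) : len (C c : MvPolynomial σ ℤ) = c.natAbs := len_monomial 0 c

lemma len_one : len (1 : MvPolynomial σ ℤ) = 1 := len_C 1

lemma len_X (i : σ) : len (X i : MvPolynomial σ ℤ) = 1 := len_monomial _ 1

lemma len_pow [DecidableEq σ] (P : MvPolynomial σ ℤ) (k : ℕ) : len (P ^ k) ≤ len P ^ k := by
  induction k with
  | zero => rw [pow_zero, pow_zero, len_one]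
  | succ k ih =>
    rw [pow_succ, pow_succ]
    exact (len_mul _ _).trans (Nat.mul_le_mul_right _ ih)

lemma len_prod_pow [DecidableEq τ] (f : σ → MvPolynomial τ ℤ) {M : ℕ} (hM : ∀ v, len (f v) ≤ M)
    (s : Finset σ) (m : σ → ℕ) :
    len (∏ v ∈ s, f v ^ m v) ≤ M ^ ∑ v ∈ s, m v := by
  classical
  induction s using Finset.induction_on with
  | empty => simp [len_one]
  | insert a s ha ih =>
    rw [Finset.prod_insert ha, Finset.sum_insert ha, pow_add]
    refine (len_mul _ _).trans (Nat.mul_le_mul ?_ ih)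
    exact (len_pow _ _).trans (Nat.pow_le_pow_left (hM a) _)

lemma deg_prod_pow (f : σ → MvPolynomial τ ℤ) {E : ℕ} (hE : ∀ v, (f v).totalDegree ≤ E)
    (s : Finset σ) (m : σ → ℕ) :
    (∏ v ∈ s, f v ^ m v).totalDegree ≤ E * ∑ v ∈ s, m v := by
  refine (totalDegree_finsetProd _ _).trans ?_
  rw [Finset.mul_sum]
  refine Finset.sum_le_sum fun v _ => ?_
  refine (totalDegree_pow _ _).trans ?_
  rw [Nat.mul_comm]
  exact Nat.mul_le_mul_right _ (hE v)

lemma aeval_eq (f : σ → MvPolynomial τ ℤ) (P : MvPolynomial σ ℤ) :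
    aeval f P = ∑ d ∈ P.support, C (P.coeff d) * ∏ v ∈ d.support, f v ^ d v := by
  rw [aeval_def, eval₂_eq]
  rfl

lemma len_aeval [DecidableEq τ] (f : σ → MvPolynomial τ ℤ) (P : MvPolynomial σ ℤ) {M d : ℕ}
    (hM : ∀ v, len (f v) ≤ M) (hM1 : 1 ≤ M) (hd : P.totalDegree ≤ d) :
    len (aeval f P) ≤ len P * M ^ d := by
  rw [aeval_eq]
  refine (len_sum _ _).trans ?_
  unfold len
  rw [Finset.sum_mul]
  refine Finset.sum_le_sum fun m hm => ?_
  refine (len_mul _ _).trans ?_
  rw [len_C]
  refine Nat.mul_le_mul_left _ ((len_prod_pow f hM _ _).trans (Nat.pow_le_pow_right hM1 ?_))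
  exact (le_totalDegree hm).trans hd

lemma deg_aeval (f : σ → MvPolynomial τ ℤ) (P : MvPolynomial σ ℤ) {E d : ℕ}
    (hE : ∀ v, (f v).totalDegree ≤ E) (hd : P.totalDegree ≤ d) :
    (aeval f P).totalDegree ≤ E * d := by
  rw [aeval_eq]
  refine (totalDegree_finsetSum _ _).trans (Finset.sup_le fun m hm => ?_)
  refine (totalDegree_mul _ _).trans ?_
  rw [totalDegree_C, Nat.zero_add]
  refine (deg_prod_pow f hE _ _).trans (Nat.mul_le_mul_left _ ?_)
  exact (le_totalDegree hm).trans hd

/-- a polynomial of degree at most `n` with coefficients at most `n` -/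
lemma len_le [Fintype σ] {P : MvPolynomial σ ℤ} {n : ℕ} (hd : P.totalDegree ≤ n)
    (hc : ∀ m, |P.coeff m| ≤ n) : len P ≤ (n + 1) ^ Fintype.card σ * n := by
  classical
  have h1 : P.support.card ≤ (n + 1) ^ Fintype.card σ := by
    have h2 : (Fintype.piFinset fun _ : σ => Finset.range (n + 1)).card
        = (n + 1) ^ Fintype.card σ := by
      rw [Fintype.card_piFinset, Finset.prod_const, Finset.card_range, Finset.card_univ]
    rw [← h2]
    refine Finset.card_le_card_of_injOn (fun m => (m : σ → ℕ)) (fun m hm => ?_)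
      (fun a _ b _ h => DFunLike.coe_injective h)
    rw [Finset.mem_coe, Fintype.mem_piFinset]
    intro v
    rw [Finset.mem_range, Nat.lt_succ_iff]
    change m v ≤ n
    refine le_trans ?_ ((le_totalDegree hm).trans hd)
    by_cases hv : v ∈ m.support
    · exact Finset.single_le_sum (f := fun v => m v) (fun _ _ => Nat.zero_le _) hv
    · rw [Finsupp.notMem_support_iff.1 hv]
      exact Nat.zero_le _
  unfold len
  refine (Finset.sum_le_card_nsmul _ _ n fun m _ => ?_).trans ?_
  · have h3 := hc m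
    rw [Int.abs_eq_natAbs] at h3
    exact_mod_cast h3
  · rw [smul_eq_mul]
    exact Nat.mul_le_mul_right _ h1

end Pool.Agent.H201.HK
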