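import Pool.Agent.H201.HK.Defs
import Pool.Agent.H201.HK.Inj

/-!
# From `m` solutions to exactly one solution
-/

set_option autoImplicit false

namespace Pool.Agent.H201.HK

open MvPolynomial

/-- the polynomial of `fv` -/
noncomputable def fp (i : ℕ) : MvPolynomial (Fin i) ℤ :=
  (∑ t : Fin i, X t + 1) ^ (i + 1) + ∑ t : Fin i, X t * (∑ t : Fin i, X t + 1) ^ (t : ℕ)

lemma eval_fp {i : ℕ} (z : Fin i → ℕ) : eval (fun t => (z t : ℤ)) (fp i) = (fv z : ℤ) := by
  unfold fp fv
  simp [map_sum]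

lemma deg_lin (i : ℕ) : (∑ t : Fin i, X t + 1 : MvPolynomial (Fin i) ℤ).totalDegree ≤ 1 := by
  refine (totalDegree_add _ _).trans (max_le ?_ ?_)
  · exact (totalDegree_finsetSum _ _).trans (Finset.sup_le fun t _ => (totalDegree_X t).le)
  · rw [totalDegree_one]
    exact Nat.zero_le _

lemma len_lin (i : ℕ) : len (∑ t : Fin i, X t + 1 : MvPolynomial (Fin i) ℤ) ≤ i + 1 := by
  refine (len_add _ _).trans ?_
  rw [len_one]
  refine Nat.add_le_add_right ((len_sum _ _).trans ?_) 1
  refine (Finset.sum_le_card_nsmul _ _ 1 fun t _ => (len_X t).le).trans ?_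
  simp

lemma deg_fp (i : ℕ) : (fp i).totalDegree ≤ i + 1 := by
  unfold fp
  refine (totalDegree_add _ _).trans (max_le ?_ ?_)
  · refine (totalDegree_pow _ _).trans ?_
    have := deg_lin i
    nlinarith
  · refine (totalDegree_finsetSum _ _).trans (Finset.sup_le fun t _ => ?_)
    refine (totalDegree_mul _ _).trans ?_
    rw [totalDegree_X]
    have h1 := totalDegree_pow (∑ t : Fin i, X t + 1 : MvPolynomial (Fin i) ℤ) (t : ℕ)
    have h2 := Nat.mul_le_mul_left (t : ℕ) (deg_lin i)
    have h3 := t.2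
    omega

lemma len_fp (i : ℕ) : len (fp i) ≤ 2 * (i + 1) ^ (i + 1) := by
  unfold fp
  refine (len_add _ _).trans ?_
  have h1 : len ((∑ t : Fin i, X t + 1 : MvPolynomial (Fin i) ℤ) ^ (i + 1)) ≤ (i + 1) ^ (i + 1) :=
    (len_pow _ _).trans (Nat.pow_le_pow_left (len_lin i) _)
  have h2 : len (∑ t : Fin i, X t * (∑ t : Fin i, X t + 1) ^ (t : ℕ) : MvPolynomial (Fin i) ℤ)
      ≤ (i + 1) ^ (i + 1) := by
    refine (len_sum _ _).trans ?_
    refine (Finset.sum_le_card_nsmul _ _ ((i + 1) ^ i) fun t _ => ?_).trans ?_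
    · refine (len_mul _ _).trans ?_
      rw [len_X, Nat.one_mul]
      refine (len_pow _ _).trans ((Nat.pow_le_pow_left (len_lin i) _).trans ?_)
      exact Nat.pow_le_pow_right (by omega) t.2.le
    · rw [Finset.card_univ, Fintype.card_fin, smul_eq_mul, pow_succ, Nat.mul_comm]
      exact Nat.mul_le_mul_left _ (by omega)
  omega

/-- the unknowns: `m` points and `m` slack variables -/
abbrev Unk (m i : ℕ) := (Fin m × Fin i) ⊕ Fin m

/-- numbering of the unknowns -/
def num (m i : ℕ) : Unk m i ≃ Fin (m * i + m) :=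
  (Equiv.sumCongr finProdFinEquiv (Equiv.refl (Fin m))).trans finSumFinEquiv

section

variable {m i : ℕ}

noncomputable def pA (D : Poly i) (n : ℕ) (t : Fin m) : MvPolynomial (Unk m i) ℤ :=
  aeval (fun o : Option (Fin i) => o.elim (C (n : ℤ)) fun s => X (Sum.inl (t, s))) D

noncomputable def pG (m i : ℕ) (t : ℕ) : MvPolynomial (Unk m i) ℤ :=
  if h : t < m then aeval (fun s : Fin i => (X (Sum.inl (⟨t, h⟩, s)) : MvPolynomial (Unk m i) ℤ)) (fp i)
  else 0

/-- the previous value plus one -/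
noncomputable def pP (m i : ℕ) : ℕ → MvPolynomial (Unk m i) ℤ
  | 0 => 0
  | t + 1 => pG m i t + 1

noncomputable def pE (m i : ℕ) (t : Fin m) : MvPolynomial (Unk m i) ℤ :=
  pG m i t - pP m i t - X (Sum.inr t)

noncomputable def pB (D : Poly i) (n m : ℕ) : MvPolynomial (Unk m i) ℤ :=
  ∑ t : Fin m, (pA D n t ^ 2 + pE m i t ^ 2)

noncomputable def uq (D : Poly i) (n m : ℕ) : Poly (m * i + m) :=
  rename (fun v => some (num m i v)) (pB D n m)

def gN (y : Unk m i → ℕ) (t : ℕ) : ℕ := if h : t < m then fv (fun s => y (Sum.inl (⟨t, h⟩, s))) else 0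

def pv (a : ℕ → ℕ) : ℕ → ℕ
  | 0 => 0
  | t + 1 => a t + 1

lemma eval_pA (D : Poly i) (n : ℕ) (t : Fin m) (y : Unk m i → ℕ) :
    eval (fun v => (y v : ℤ)) (pA D n t) = eval (pt n fun s => y (Sum.inl (t, s))) D := by
  unfold pA
  rw [eval_bind]
  congr 2
  funext o
  cases o with
  | none => exact eval_C _
  | some s => exact eval_X _

lemma eval_pG (t : ℕ) (y : Unk m i → ℕ) :
    eval (fun v => (y v : ℤ)) (pG m i t) = (gN y t : ℤ) := by
  unfold pG gN
  split_ifs with h
  · rw [eval_bind, ← eval_fp]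
    congr 2
    funext s
    exact eval_X _
  · simp

lemma eval_pP (t : ℕ) (y : Unk m i → ℕ) :
    eval (fun v => (y v : ℤ)) (pP m i t) = (pv (gN y) t : ℤ) := by
  cases t with
  | zero => simp [pP, pv]
  | succ t => simp [pP, pv, eval_pG]

lemma eval_pB (D : Poly i) (n : ℕ) (y : Unk m i → ℕ) :
    eval (fun v => (y v : ℤ)) (pB D n m) = 0 ↔
      ∀ t : Fin m, (fun s => y (Sum.inl (t, s))) ∈ Sol D n ∧
        gN y t = pv (gN y) t + y (Sum.inr t) := by
  unfold pB
  rw [map_sum, Finset.sum_eq_zero_iff_of_nonneg]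
  · refine ⟨fun h t => ?_, fun h t _ => ?_⟩
    · have h1 := h t (Finset.mem_univ t)
      rw [map_add, map_pow, map_pow] at h1
      have h0 := (add_eq_zero_iff_of_nonneg (sq_nonneg _) (sq_nonneg _)).1 h1
      have h2 : eval (fun v => (y v : ℤ)) (pA D n t) = 0 := pow_eq_zero_iff two_ne_zero |>.1 h0.1
      have h3 : eval (fun v => (y v : ℤ)) (pE m i t) = 0 := pow_eq_zero_iff two_ne_zero |>.1 h0.2
      refine ⟨(eval_pA D n t y).symm.trans h2, ?_⟩
      unfold pE at h3
      rw [map_sub, map_sub, eval_pG, eval_pP, eval_X] at h3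
      omega
    · obtain ⟨h1, h2⟩ := h t
      have h3 : eval (fun v => (y v : ℤ)) (pA D n t) = 0 := (eval_pA D n t y).trans h1
      have h4 : eval (fun v => (y v : ℤ)) (pE m i t) = 0 := by
        unfold pE
        rw [map_sub, map_sub, eval_pG, eval_pP, eval_X]
        omega
      rw [map_add, map_pow, map_pow, h3, h4]
      norm_num
  · intro t _
    rw [map_add, map_pow, map_pow]
    positivity

lemma mem_uq (D : Poly i) (n j : ℕ) (z : Fin (m * i + m) → ℕ) : z ∈ Sol (uq D n m) j ↔
    ∀ t : Fin m, (fun s => z (num m i (Sum.inl (t, s)))) ∈ Sol D n ∧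
      gN (fun v => z (num m i v)) t = pv (gN fun v => z (num m i v)) t + z (num m i (Sum.inr t)) := by
  rw [← eval_pB D n (fun v => z (num m i v))]
  unfold Sol uq
  rw [Set.mem_ofPred_eq, eval_rename]
  rfl

lemma gN_mono {y : Unk m i → ℕ} (h : ∀ t : Fin m, gN y t = pv (gN y) t + y (Sum.inr t)) :
    ∀ b a : ℕ, a < b → b < m → gN y a < gN y b := by
  intro b
  induction b with
  | zero => intro a ha; omega
  | succ b ih =>
    intro a ha hb
    have h1 := h ⟨b + 1, hb⟩
    simp only [pv] at h1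
    rcases Nat.lt_succ_iff_lt_or_eq.1 ha with h2 | h2
    · have := ih a h2 (by omega)
      omega
    · rw [h2]
      omega

/-- exactly one solution -/
lemma uq_one {D : Poly i} {n : ℕ} (hm : (Sol D n).encard = (m : ℕ∞)) (j : ℕ) :
    ∃ z₀, Sol (uq D n m) j = {z₀} ∧ ∀ z ∈ Sol D n, ∀ s, ∃ t, z s = z₀ t := by
  classical
  have hfin : (Sol D n).Finite := by
    rw [← Set.encard_lt_top_iff, hm]
    exact ENat.natCast_lt_top m
  obtain ⟨S, hS⟩ : ∃ S : Finset (Fin i → ℕ), S = hfin.toFinset := ⟨_, rfl⟩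
  have hmem : ∀ z, z ∈ S ↔ z ∈ Sol D n := fun z => by rw [hS, hfin.mem_toFinset]
  have hcard : S.card = m := by
    rw [hfin.encard_eq_coe_toFinset_card, ← hS] at hm
    exact_mod_cast hm
  obtain ⟨F, hF⟩ : ∃ F : Finset ℕ, F = S.image fv := ⟨_, rfl⟩
  have hFc : F.card = m := by rw [hF, Finset.card_image_of_injective S fv_inj, hcard]
  obtain ⟨em, hem⟩ : ∃ em : Fin m ↪o ℕ, em = F.orderEmbOfFin hFc := ⟨_, rfl⟩
  have h1 : ∀ t : Fin m, ∃ z ∈ S, fv z = em t := by
    intro t
    have h2 : em t ∈ F := by rw [hem]; exact Finset.orderEmbOfFin_mem F hFc t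
    rw [hF, Finset.mem_image] at h2
    exact h2
  choose ζ hζ hζ2 using h1
  obtain ⟨eN, heN⟩ : ∃ eN : ℕ → ℕ, ∀ t, eN t = if h : t < m then em ⟨t, h⟩ else 0 :=
    ⟨_, fun _ => rfl⟩
  obtain ⟨y₀, hy₀⟩ : ∃ y₀ : Unk m i → ℕ, y₀ = Sum.elim
    (fun p : Fin m × Fin i => ζ p.1 p.2) (fun t : Fin m => eN t - pv eN t) := ⟨_, rfl⟩
  have hg : gN y₀ = eN := by
    funext t
    unfold gN
    rw [heN]
    split_ifs with h
    · rw [← hζ2, hy₀]
      rfl
    · rfl
  have hle : ∀ t : Fin m, pv eN t ≤ eN t := by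
    rintro ⟨t, ht⟩
    cases t with
    | zero => exact Nat.zero_le _
    | succ t =>
      simp only [pv]
      rw [heN, heN, dif_pos (by omega : t < m), dif_pos ht]
      exact em.strictMono (show (⟨t, by omega⟩ : Fin m) < ⟨t + 1, ht⟩ from Nat.lt_succ_self t)
  refine ⟨fun x => y₀ ((num m i).symm x), ?_, ?_⟩
  · ext z
    rw [Set.mem_singleton_iff, mem_uq]
    constructor
    · intro h
      have hmono := gN_mono (y := fun v => z (num m i v)) fun t => (h t).2
      have h2 : (fun t : Fin m => gN (fun v => z (num m i v)) t) = em := by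
        rw [hem]
        refine Finset.orderEmbOfFin_unique hFc (fun t => ?_) fun a b hab => hmono b a hab b.2
        rw [hF, Finset.mem_image]
        refine ⟨fun s => z (num m i (Sum.inl (t, s))), (hmem _).2 (h t).1, ?_⟩
        unfold gN
        rw [dif_pos t.2]
      have h3 : ∀ t : Fin m, (fun s => z (num m i (Sum.inl (t, s)))) = ζ t := by
        intro t
        apply fv_inj
        rw [hζ2, ← h2]
        change _ = gN (fun v => z (num m i v)) (t : ℕ)
        unfold gN
        rw [dif_pos t.2]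
      have h4 : gN (fun v => z (num m i v)) = eN := by
        funext t
        rw [heN]
        split_ifs with ht
        · exact congrFun h2 ⟨t, ht⟩
        · unfold gN
          rw [dif_neg ht]
      funext x
      obtain ⟨v, rfl⟩ := (num m i).surjective x
      rw [Equiv.symm_apply_apply, hy₀]
      rcases v with ⟨t, s⟩ | t
      · exact congrFun (h3 t) s
      · have h5 := (h t).2
        rw [h4] at h5
        simp only [Sum.elim_inr]
        omega
    · rintro rfl
      intro t
      have h2 : (fun v => (fun x => y₀ ((num m i).symm x)) (num m i v)) = y₀ := by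
        funext v
        simp
      rw [h2, hg]
      refine ⟨?_, ?_⟩
      · rw [← hmem]
        have h3 : (fun s => (fun x => y₀ ((num m i).symm x)) (num m i (Sum.inl (t, s)))) = ζ t := by
          funext s
          simp [hy₀]
        rw [h3]
        exact hζ t
      · have h3 := hle t
        simp only [Equiv.symm_apply_apply, hy₀, Sum.elim_inr]
        omega
  · intro z hz s
    have h2 : fv z ∈ F := by
      rw [hF, Finset.mem_image]
      exact ⟨z, (hmem z).2 hz, rfl⟩
    have h3 : fv z ∈ Set.range (F.orderEmbOfFin hFc) := by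
      rw [Finset.range_orderEmbOfFin]
      exact h2
    obtain ⟨t, ht⟩ := h3
    have h4 : z = ζ t := by
      apply fv_inj
      rw [hζ2, hem, ht]
    refine ⟨num m i (Sum.inl (t, s)), ?_⟩
    simp [hy₀, h4]

end

end Pool.Agent.H201.HK
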